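import Pool.Agent.H748R2.KB.Spec
import Pool.Agent.H212R2.KLS.T1

/-!
# The Brunn-Minkowski inequality, root-free form
-/

set_option autoImplicit false

open MeasureTheory Set
open scoped ENNReal Pointwise

namespace Pool.Agent.H748R2.KB

open Pool.Agent.H404R2.TH (CB V)

namespace BMAux

theorem two {n : ℕ} (t : ℝ) (ht0 : 0 < t) (ht1 : t < 1) (A C D : Set (Fin n → ℝ))
    (hA : IsCompact A) (hC : IsCompact C) (hD : IsCompact D)
    (h : ∀ x ∈ A, ∀ y ∈ C, (1 - t) • x + t • y ∈ D) (v : ℝ≥0∞) (hvA : v ≤ volume A)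
    (hvC : v ≤ volume C) : v ≤ volume D := by
  have hPL := Pool.Agent.H212R2.KLS.PL (volume : Measure (Fin n → ℝ)) t ht0 ht1
    (A.indicator 1) (C.indicator 1)
    (D.indicator 1) (measurable_one.indicator hA.measurableSet)
    (measurable_one.indicator hC.measurableSet) (measurable_one.indicator hD.measurableSet) ?_
  · rw [lintegral_indicator_one hA.measurableSet, lintegral_indicator_one hC.measurableSet,
      lintegral_indicator_one hD.measurableSet] at hPL
    refine le_trans ?_ hPL
    rcases eq_or_ne v 0 with rfl | hv0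
    · exact zero_le
    · have hvt : v ≠ ∞ := ne_top_of_le_ne_top hC.measure_ne_top hvC
      calc v = v ^ (1 - t) * v ^ t := by
            rw [← ENNReal.rpow_add _ _ hv0 hvt]
            norm_num
        _ ≤ (volume A) ^ (1 - t) * (volume C) ^ t := by
            gcongr
  · intro x y
    by_cases hx : x ∈ A
    · by_cases hy : y ∈ C
      · rw [indicator_of_mem hx, indicator_of_mem hy, indicator_of_mem (h x hx y hy)]
        simp
      · rw [indicator_of_notMem hy, ENNReal.zero_rpow_of_pos ht0, mul_zero]
        exact zero_le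
    · rw [indicator_of_notMem hx, ENNReal.zero_rpow_of_pos (by linarith), zero_mul]
      exact zero_le

theorem smul_vol {n : ℕ} (A : Set (Fin n → ℝ)) (hA : IsCompact A) (a s : ℝ) (ha : 0 < a)
    (hs : 0 < s) (h : a ^ n ≤ V A) : ENNReal.ofReal (s ^ n) ≤ volume ((s / a) • A) := by
  have hsa : 0 < s / a := div_pos hs ha
  rw [Measure.addHaar_smul, Module.finrank_fin_fun, abs_of_pos (pow_pos hsa n)]
  have h1 : ENNReal.ofReal (a ^ n) ≤ volume A :=
    ENNReal.ofReal_le_of_le_toReal h
  calc ENNReal.ofReal (s ^ n) = ENNReal.ofReal ((s / a) ^ n) * ENNReal.ofReal (a ^ n) := by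
        rw [← ENNReal.ofReal_mul (pow_nonneg hsa.le n), ← mul_pow, div_mul_cancel₀ _ ha.ne']
    _ ≤ _ := by gcongr

theorem translate {n : ℕ} (A B : Set (Fin n → ℝ)) (hA : IsCompact A) (hB : IsCompact B)
    (hne : A.Nonempty) : V B ≤ V (A + B) := by
  obtain ⟨x, hx⟩ := hne
  refine ENNReal.toReal_mono (hA.add hB).measure_ne_top ?_
  have h1 : volume (x +ᵥ B) = volume B := measure_vadd volume x B
  rw [← h1]
  refine measure_mono ?_
  rintro _ ⟨y, hy, rfl⟩
  exact Set.add_mem_add hx hy

end BMAux

open BMAux in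
theorem t_BM : S_BM := by
  intro n A B hA hB hAn hBn a b ha hb hVA hVB
  rcases Nat.eq_zero_or_pos n with rfl | hn
  · have h1 : A + B = A := by
      obtain ⟨x, hx⟩ := hAn
      obtain ⟨y, hy⟩ := hBn
      ext z
      constructor
      · intro _
        rwa [Subsingleton.elim z x]
      · intro _
        rw [Subsingleton.elim z (x + y)]
        exact Set.add_mem_add hx hy
    rw [h1]
    simpa using hVA
  · rcases ha.eq_or_lt with rfl | ha0
    · rw [zero_add]
      exact hVB.trans (translate A B hA hB hAn)
    rcases hb.eq_or_lt with rfl | hb0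
    · rw [add_zero, add_comm A B]
      exact hVA.trans (translate B A hB hA hBn)
    have hab : 0 < a + b := by linarith
    have h1 := two (b / (a + b)) (div_pos hb0 hab) ((div_lt_one hab).mpr (by linarith))
      (((a + b) / a) • A) (((a + b) / b) • B) (A + B) (hA.smul _) (hB.smul _) (hA.add hB) ?_
      (ENNReal.ofReal ((a + b) ^ n)) (smul_vol A hA a (a + b) ha0 hab hVA)
      (smul_vol B hB b (a + b) hb0 hab hVB)
    · have h2 := ENNReal.toReal_mono (hA.add hB).measure_ne_top h1
      rwa [ENNReal.toReal_ofReal (pow_nonneg hab.le n)] at h2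
    · rintro _ ⟨x, hx, rfl⟩ _ ⟨y, hy, rfl⟩
      have e1 : (1 - b / (a + b)) • ((a + b) / a) • x = x := by
        rw [smul_smul]
        have : (1 - b / (a + b)) * ((a + b) / a) = 1 := by field_simp; ring
        rw [this, one_smul]
      have e2 : (b / (a + b)) • ((a + b) / b) • y = y := by
        rw [smul_smul]
        have : (b / (a + b)) * ((a + b) / b) = 1 := by field_simp
        rw [this, one_smul]
      show (1 - b / (a + b)) • ((a + b) / a) • x + (b / (a + b)) • ((a + b) / b) • y ∈ A + B
      rw [e1, e2]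
      exact Set.add_mem_add hx hy

end Pool.Agent.H748R2.KB
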