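import Pool.Agent.H748R2.KB.Spec

/-! Task BLA (helper265): Minkowski inequality for the Blaschke body. -/

set_option autoImplicit false

open MeasureTheory Set Pointwise Topology

namespace Pool.Agent.H748R2.KB

open Pool.Agent.H404R2.TH (CB V)

namespace BLA

theorem V_nonneg {n : ℕ} (K : Set (Fin n → ℝ)) : 0 ≤ V K := ENNReal.toReal_nonneg

theorem V_smul {n : ℕ} (K : Set (Fin n → ℝ)) (t : ℝ) (ht : 0 ≤ t) : V (t • K) = t ^ n * V K := by
  unfold V
  rw [Measure.addHaar_smul_of_nonneg _ ht, ENNReal.toReal_mul, Module.finrank_fin_fun,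
    ENNReal.toReal_ofReal (by positivity)]

theorem V_mono {n : ℕ} {K L : Set (Fin n → ℝ)} (h : K ⊆ L) (hL : IsCompact L) : V K ≤ V L :=
  ENNReal.toReal_mono hL.measure_lt_top.ne (measure_mono h)

theorem sy_compact {n : ℕ} {K : Set (Fin n → ℝ)} (hK : IsCompact K) (z : Fin n → ℝ) :
    IsCompact (sy K z) := by
  have h1 : sy K z = K ∩ (fun x => z - x) ⁻¹' K := rfl
  rw [h1]
  exact hK.inter_right (hK.isClosed.preimage (by fun_prop))

theorem sy_convex {n : ℕ} {K : Set (Fin n → ℝ)} (hK : Convex ℝ K) (z : Fin n → ℝ) :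
    Convex ℝ (sy K z) := by
  intro x hx y hy a b ha hb hab
  refine ⟨hK hx.1 hy.1 ha hb hab, ?_⟩
  have h1 := hK hx.2 hy.2 ha hb hab
  have h2 : z - (a • x + b • y) = a • (z - x) + b • (z - y) := by
    have h3 : z = a • z + b • z := by rw [← add_smul, hab, one_smul]
    calc z - (a • x + b • y) = (a • z + b • z) - (a • x + b • y) := by rw [← h3]
      _ = a • (z - x) + b • (z - y) := by rw [smul_sub, smul_sub]; abel
  rw [h2]
  exact h1

theorem sy_symm {n : ℕ} {K : Set (Fin n → ℝ)} {z x : Fin n → ℝ} (hx : x ∈ sy K z) :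
    z - x ∈ sy K z := ⟨hx.2, by rw [sub_sub_cancel]; exact hx.1⟩

theorem V_neg {n : ℕ} (K : Set (Fin n → ℝ)) : V (-K) = V K := by
  unfold V
  rw [Measure.measure_neg]

theorem V_vadd {n : ℕ} (v : Fin n → ℝ) (K : Set (Fin n → ℝ)) : V (v +ᵥ K) = V K := by
  unfold V
  rw [measure_vadd]

theorem key {n : ℕ} (K : Set (Fin n → ℝ)) (z : Fin n → ℝ) (t : ℝ) :
    V (-K + t • sy K z) = V (K + t • sy K z) := by
  have h1 : -K + t • sy K z = -((-(t • z)) +ᵥ (K + t • sy K z)) := by
    ext x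
    simp only [Set.mem_neg, Set.mem_vadd_set, Set.mem_add, Set.mem_smul_set]
    constructor
    · rintro ⟨k, hk, _, ⟨l, hl, rfl⟩, rfl⟩
      refine ⟨-k + t • (z - l), ⟨-k, hk, _, ⟨z - l, sy_symm hl, rfl⟩, rfl⟩, ?_⟩
      show -(t • z) + (-k + t • (z - l)) = -(k + t • l)
      rw [smul_sub]; abel
    · rintro ⟨_, ⟨k, hk, _, ⟨l, hl, rfl⟩, rfl⟩, h⟩
      have h' : -(t • z) + (k + t • l) = -x := h
      refine ⟨-k, by rwa [neg_neg], _, ⟨z - l, sy_symm hl, rfl⟩, ?_⟩
      have h2 : x = -(-(t • z) + (k + t • l)) := by rw [h', neg_neg]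
      rw [h2, smul_sub]; abel
  rw [h1, V_neg, V_vadd]

theorem bern (b y : ℝ) (hb : 0 ≤ b) (hy : 0 ≤ y) (n : ℕ) :
    b ^ (n + 1) + (n + 1) * (b ^ n * y) ≤ (b + y) ^ (n + 1) := by
  induction n with
  | zero => simp
  | succ n ih =>
    have h1 := mul_le_mul_of_nonneg_right ih (add_nonneg hb hy)
    have h2 : 0 ≤ ((n : ℝ) + 1) * (b ^ n * y) * y := by positivity
    calc b ^ (n + 1 + 1) + ((n + 1 : ℕ) + 1) * (b ^ (n + 1) * y)
        ≤ (b ^ (n + 1) + (n + 1) * (b ^ n * y)) * (b + y) := by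
          push_cast
          have e : (b ^ (n + 1) + (n + 1) * (b ^ n * y)) * (b + y) =
            b ^ (n + 1 + 1) + ((n : ℝ) + 1 + 1) * (b ^ (n + 1) * y) +
              ((n : ℝ) + 1) * (b ^ n * y) * y := by ring
          rw [e]; linarith
      _ ≤ (b + y) ^ (n + 1) * (b + y) := h1
      _ = (b + y) ^ (n + 1 + 1) := by ring

end BLA

open BLA in
theorem t_BLA (hBM : S_BM) (hPOLY : Pool.Agent.H404R2.TH.S_POLY) : S_BLA := by
  intro n hn K B hK hB hBl z
  set L := sy K z with hL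
  have hLc : IsCompact L := sy_compact hK.isCompact z
  have hLv : Convex ℝ L := sy_convex hK.convex z
  have hLK : L ⊆ K := fun x hx => hx.1
  have hVK := V_nonneg K
  have hn0 : n ≠ 0 := by omega
  have hn' : (0 : ℝ) < n := by exact_mod_cast Nat.pos_of_ne_zero hn0
  rcases eq_or_lt_of_le (V_nonneg L) with h0 | h0
  · rw [← h0, mul_zero]
    positivity
  -- `L` is a convex body
  have hLi : (interior L).Nonempty := by
    by_contra hne
    rw [Set.not_nonempty_iff_eq_empty] at hne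
    have h1 : volume L = 0 := by
      have h2 : L ⊆ frontier L := by
        intro x hx
        rw [frontier, hne, Set.sdiff_empty]
        exact subset_closure hx
      exact measure_mono_null h2 (hLv.addHaar_frontier volume)
    have h2 : V L = 0 := by unfold V; rw [h1]; rfl
    exact h0.ne' h2
  have hLB : CB L := ⟨hLc, hLv, hLi⟩
  have hLne : L.Nonempty := hLi.mono interior_subset
  obtain ⟨P, -, hP⟩ := hPOLY n K L hK hLB
  have hP0 : P.eval 0 = V K := by
    rw [← hP 0 le_rfl, zero_smul_set hLne, add_zero]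
  -- first variation
  set a : ℝ := P.derivative.eval 0 / n with ha
  have hpoly : Filter.Tendsto (fun t : ℝ => (P.eval t - P.eval 0) / (n * t)) (𝓝[>] 0) (𝓝 a) := by
    have h1 := hasDerivAt_iff_tendsto_slope_zero.1 (P.hasDerivAt 0)
    have h2 : Filter.Tendsto (fun t : ℝ => t⁻¹ • (P.eval (0 + t) - P.eval 0)) (𝓝[>] 0)
        (𝓝 (P.derivative.eval 0)) :=
      h1.mono_left (nhdsWithin_mono _ fun t ht => (ne_of_gt ht))
    have h3 := h2.div_const (n : ℝ)
    refine h3.congr fun t => ?_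
    rw [zero_add, smul_eq_mul, div_eq_mul_inv, div_eq_mul_inv, mul_inv]
    ring
  have hV1 : HasV1 K L a := by
    unfold HasV1
    refine hpoly.congr' ?_
    filter_upwards [self_mem_nhdsWithin] with t ht
    rw [hP t (le_of_lt ht), hP0]
  have hV2 : HasV1 (-K) L a := by
    unfold HasV1 at hV1 ⊢
    refine hV1.congr fun t => ?_
    rw [hL, key K z t, V_neg]
  have hV3 : HasV1 B L a := by
    have h1 := hBl L hLB a a hV1 hV2
    rwa [add_self_div_two] at h1
  -- upper bound
  have haK : a ≤ V K := by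
    have h1 : Filter.Tendsto (fun t : ℝ => ((1 + t) ^ n - 1) / (n * t) * V K) (𝓝[>] 0)
        (𝓝 (1 * V K)) := by
      refine Filter.Tendsto.mul_const _ ?_
      have h2 : HasDerivAt (fun t : ℝ => (1 + t) ^ n) (n * (1 + 0) ^ (n - 1) * 1) 0 :=
        ((hasDerivAt_id (0 : ℝ)).const_add 1).pow n
      have h3 := hasDerivAt_iff_tendsto_slope_zero.1 h2
      have h4 : Filter.Tendsto (fun t : ℝ => t⁻¹ • ((1 + (0 + t)) ^ n - (1 + 0) ^ n)) (𝓝[>] 0)
          (𝓝 (n * (1 + 0) ^ (n - 1) * 1)) :=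
        h3.mono_left (nhdsWithin_mono _ fun t ht => (ne_of_gt ht))
      have h5 := h4.div_const (n : ℝ)
      have h6 : (n : ℝ) * (1 + 0) ^ (n - 1) * 1 / n = 1 := by
        rw [add_zero, one_pow, mul_one, mul_one, div_self hn'.ne']
      rw [h6] at h5
      refine h5.congr fun t => ?_
      rw [zero_add, add_zero, one_pow, smul_eq_mul, div_eq_mul_inv, div_eq_mul_inv, mul_inv]
      ring
    rw [one_mul] at h1
    refine le_of_tendsto_of_tendsto hV1 h1 ?_
    filter_upwards [self_mem_nhdsWithin] with t ht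
    have ht0 : 0 < t := ht
    have h2 : V (K + t • L) ≤ (1 + t) ^ n * V K := by
      have h3 : K + t • L ⊆ (1 + t) • K := by
        rw [hK.convex.add_smul zero_le_one ht0.le, one_smul]
        exact Set.add_subset_add_left (Set.smul_set_mono hLK)
      calc V (K + t • L) ≤ V ((1 + t) • K) := V_mono h3 (hK.isCompact.smul _)
        _ = (1 + t) ^ n * V K := V_smul K _ (by linarith)
    have h4 : 0 < n * t := by positivity
    rw [div_mul_eq_mul_div, div_le_div_iff_of_pos_right h4]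
    linarith
  -- lower bound
  set b : ℝ := V B ^ ((n : ℝ)⁻¹) with hb
  set l : ℝ := V L ^ ((n : ℝ)⁻¹) with hl
  have hb0 : 0 ≤ b := Real.rpow_nonneg (V_nonneg B) _
  have hl0 : 0 ≤ l := Real.rpow_nonneg (V_nonneg L) _
  have hbn : b ^ n = V B := Real.rpow_inv_natCast_pow (V_nonneg B) hn0
  have hln : l ^ n = V L := Real.rpow_inv_natCast_pow (V_nonneg L) hn0
  have hba : b ^ (n - 1) * l ≤ a := by
    refine ge_of_tendsto hV3 ?_
    filter_upwards [self_mem_nhdsWithin] with t ht
    have ht0 : 0 < t := ht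
    have h4 : 0 < n * t := by positivity
    rw [le_div_iff₀ h4]
    have h1 := hBM n B (t • L) hB.isCompact (hLc.smul t) (hB.interior_nonempty.mono interior_subset)
      (hLne.smul_set) b (t * l) hb0 (by positivity) hbn.le (by
        rw [mul_pow, V_smul L t ht0.le, hln])
    obtain ⟨m, rfl⟩ : ∃ m, n = m + 1 := ⟨n - 1, by omega⟩
    have h2 := bern b (t * l) hb0 (by positivity) m
    rw [Nat.add_sub_cancel]
    push_cast at *
    have h3 : b ^ m * l * ((m + 1) * t) = (m + 1) * (b ^ m * (t * l)) := by ring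
    rw [h3]
    linarith
  have hfin : b ^ (n - 1) * l ≤ V K := hba.trans haK
  have h1 : (b ^ (n - 1) * l) ^ n ≤ V K ^ n := pow_le_pow_left₀ (by positivity) hfin n
  calc V B ^ (n - 1) * V L = (b ^ (n - 1) * l) ^ n := by
        rw [mul_pow, hln, ← pow_mul, mul_comm (n - 1) n, pow_mul, hbn]
    _ ≤ V K ^ n := h1

end Pool.Agent.H748R2.KB
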