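import Pool.Agent.H748R2.KB.NM
import Pool.Agent.H748R2.KB.TBLA

set_option autoImplicit false

/-!
helper748: the volume of the Blaschke body in dimension three.
-/

open MeasureTheory Set Pointwise Topology

namespace Pool.Agent.H748R2.KB

open Pool.Agent.H404R2.TH (CB V S_MAIN S_POLY)
open Pool.Agent.H404R2.TH.MAINaux (cb_neg)

/-- Minkowski's first inequality in the form of the first variation, dimension three -/
lemma mink3 (hBM : S_BM) {B Y : Set (Fin 3 → ℝ)} (hB : CB B) (hY : IsCompact Y) (hY0 : Y.Nonempty)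
    {a : ℝ} (ha : HasV1 B Y a) : V B ^ 2 * V Y ≤ a ^ 3 := by
  obtain ⟨b, hb0, hb⟩ := cbrt (V B) (V_nonneg B)
  obtain ⟨y, hy0, hy⟩ := cbrt (V Y) (V_nonneg Y)
  have h1 : b ^ 2 * y ≤ a := by
    refine ge_of_tendsto ha ?_
    filter_upwards [self_mem_nhdsWithin] with t ht
    have ht : 0 < t := ht
    have h2 := hBM 3 B (t • Y) hB.isCompact (hY.smul t) (hB.interior_nonempty.mono interior_subset)
      (hY0.smul_set) b (t * y) hb0 (by positivity) hb.le (by
        rw [Pool.Agent.H404R2.TH.MAINaux.V_smul t ht.le, mul_pow, hy])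
    have h3 : b ^ 3 + 3 * t * (b ^ 2 * y) ≤ (b + t * y) ^ 3 := by
      have : 0 ≤ 3 * b * (t * y) ^ 2 + (t * y) ^ 3 := by positivity
      nlinarith
    rw [le_div_iff₀ (by positivity)]
    push_cast
    rw [← hb]
    nlinarith
  have h4 : (b ^ 2 * y) ^ 3 ≤ a ^ 3 := pow_le_pow_left₀ (by positivity) h1 3
  calc V B ^ 2 * V Y = (b ^ 2 * y) ^ 3 := by rw [← hb, ← hy]; ring
    _ ≤ a ^ 3 := h4

/-- data of the difference body -/
lemma dataDK (hM : S_MAIN) {K : Set (Fin 3 → ℝ)} (hK : CB K) :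
    V K ≤ V (K - K) ∧ V (K - K) ≤ 20 * V K ∧ V (hd K) = V (K - K) / 8 ∧
    HasV1 K (hd K) ((4 * V K + V (K - K)) / 12) := by
  obtain ⟨c, p, -, hpoly, hc1, hc2⟩ := hM K hK
  have hv : 0 < V K := V_pos hK
  have hd1 : V (K - K) = 2 * V K + 2 * c := by
    have h1 := hpoly 1 zero_le_one
    rw [one_smul, ← sub_eq_add_neg] at h1
    rw [h1]; ring
  have h2 : V K ≤ V (K - K) := by
    obtain ⟨x, hx⟩ := hK.interior_nonempty
    have hx := interior_subset hx
    have h3 : V K = V ((-x) +ᵥ K) := by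
      unfold V
      rw [measure_vadd]
    rw [h3]
    refine V_mono ?_ (by rw [sub_eq_add_neg]; exact hK.isCompact.add hK.isCompact.neg)
    rintro _ ⟨y, hy, rfl⟩
    refine ⟨y, hy, x, hx, ?_⟩
    simp [vadd_eq_add]
    abel
  refine ⟨h2, by rw [hd1]; linarith, ?_, ?_⟩
  · unfold hd
    rw [Pool.Agent.H404R2.TH.MAINaux.V_smul _ (by norm_num), ← sub_eq_add_neg]
    ring
  · unfold HasV1
    have hVo : ∀ t : ℝ, 0 < t → (V (K + t • hd K) - V K) / ((3 : ℕ) * t) =
        (4 * V K + V (K - K)) / 12 + t * ((V K + c) * (1 / 4 + t / 12)) := by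
      intro t ht
      have h5 : V (K + t • hd K) = V K * ((1 + t / 2) ^ 3 + (t / 2) ^ 3)
          + c * ((1 + t / 2) ^ 2 * (t / 2) + (1 + t / 2) * (t / 2) ^ 2) := by
        rw [outer_eq hK ht.le, Pool.Agent.H404R2.TH.MAINaux.V_smul _ (by positivity),
          hpoly _ (by positivity)]
        have : (1 + t / 2) ≠ 0 := by positivity
        field_simp
      rw [h5, hd1]
      push_cast
      field_simp
      ring
    have hlim : Filter.Tendsto (fun t : ℝ => (4 * V K + V (K - K)) / 12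
        + t * ((V K + c) * (1 / 4 + t / 12))) (𝓝[>] 0) (𝓝 ((4 * V K + V (K - K)) / 12)) := by
      have hc : Continuous (fun t : ℝ => (4 * V K + V (K - K)) / 12
        + t * ((V K + c) * (1 / 4 + t / 12))) := by fun_prop
      exact (hc.tendsto' 0 _ (by simp)).mono_left nhdsWithin_le_nhds
    refine hlim.congr' ?_
    filter_upwards [self_mem_nhdsWithin] with t ht
    exact (hVo t ht).symm

/-- the reflected body has the same first variation with respect to the difference body -/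
lemma hasV1_neg {K : Set (Fin 3 → ℝ)} {a : ℝ} (h : HasV1 K (hd K) a) : HasV1 (-K) (hd K) a := by
  have hs : -(hd K) = hd K := by
    ext y
    constructor
    · intro hy
      have := hd_symm (Set.mem_neg.1 hy)
      rwa [neg_neg] at this
    · intro hy
      exact Set.mem_neg.2 (hd_symm hy)
  unfold HasV1 at h ⊢
  refine h.congr' ?_
  filter_upwards [self_mem_nhdsWithin] with t _
  have e : -K + t • hd K = -(K + t • hd K) := by
    rw [neg_add, ← smul_set_neg, hs]
  rw [e, Pool.Agent.H404R2.TH.MAINaux.V_neg, Pool.Agent.H404R2.TH.MAINaux.V_neg]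

/-- the Blaschke body in dimension three -/
theorem bla3 (hBM : S_BM) (hM : S_MAIN) (K B : Set (Fin 3 → ℝ)) (hK : CB K) (hB : CB B)
    (hBl : IsBlaschke B K) :
    216 * V (K - K) * V B ^ 2 ≤ (V (K - K) + 4 * V K) ^ 3 ∧
    5 * V B ^ 2 ≤ 16 * V K ^ 2 ∧
    (V (K - K) ≤ 719 / 50 * V K → V B ^ 2 < 2 * V K ^ 2) := by
  obtain ⟨hd1, hd2, hdV, hdH⟩ := dataDK hM hK
  have hv : 0 < V K := V_pos hK
  have hdcb : CB (hd K) := cb_of_pos (hd_compact hK) (hd_convex hK) (by rw [hdV]; linarith)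
  have h1 := hBl (hd K) hdcb _ _ hdH (hasV1_neg hdH)
  have h2 := mink3 hBM hB hdcb.isCompact ⟨0, hd_zero hK⟩ h1
  rw [hdV] at h2
  set d := V (K - K) with hd
  set v := V K with hv'
  set b := V B with hb
  have hmain : 216 * d * b ^ 2 ≤ (d + 4 * v) ^ 3 := by
    have e : ((4 * v + d) / 12 + (4 * v + d) / 12) / 2 = (4 * v + d) / 12 := by ring
    rw [e] at h2
    have e2 : ((4 * v + d) / 12) ^ 3 = (d + 4 * v) ^ 3 / 1728 := by ring
    rw [e2] at h2
    linarith
  refine ⟨hmain, ?_, ?_⟩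
  · have h3 : 5 * (d + 4 * v) ^ 3 ≤ 3456 * d * v ^ 2 := by
      nlinarith [mul_nonneg (mul_nonneg (sub_nonneg.2 hd1) (sub_nonneg.2 hd2)) hv.le,
        mul_nonneg (mul_nonneg (sub_nonneg.2 hd1) (sub_nonneg.2 hd2)) (by linarith : 0 ≤ d),
        mul_nonneg (sub_nonneg.2 hd1) (sq_nonneg v), mul_nonneg (sub_nonneg.2 hd2) (sq_nonneg v)]
    have hdpos : 0 < d := by linarith
    have h4 : d * (5 * b ^ 2) ≤ d * (16 * v ^ 2) := by nlinarith
    exact le_of_mul_le_mul_left h4 hdpos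
  · intro h14
    have h3 : (d + 4 * v) ^ 3 < 432 * d * v ^ 2 := by
      have hd3 : 0 ≤ 719 / 50 * v - d := by linarith
      have hd4 : 0 ≤ d - v := by linarith
      have hv3 : 0 < v ^ 3 := by positivity
      nlinarith [mul_nonneg (mul_nonneg hd4 hd3) hv.le,
        mul_nonneg (mul_nonneg hd4 hd3) (by linarith : 0 ≤ d),
        mul_nonneg hd4 (sq_nonneg v), mul_nonneg hd3 (sq_nonneg v)]
    have hdpos : 0 < d := by linarith
    have h4 : d * (b ^ 2) < d * (2 * v ^ 2) := by nlinarith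
    exact lt_of_mul_lt_mul_left h4 hdpos.le

end Pool.Agent.H748R2.KB
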