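import Pool.Agent.H748R2.KB.Spec
import Pool.Agent.H404R2.TH.TMAIN

set_option autoImplicit false

/-!
helper748: the near-minimiser argument: every convex body in `ℝ³` has a symmetric part of volume at
least `5/16` of the volume.
-/

open MeasureTheory Set Pointwise

namespace Pool.Agent.H748R2.KB

open Pool.Agent.H404R2.TH (CB V S_MAIN S_POLY)
open Pool.Agent.H404R2.TH.MAINaux (cb_neg V_neg V_smul)

lemma V_nonneg {n : ℕ} (A : Set (Fin n → ℝ)) : 0 ≤ V A := ENNReal.toReal_nonneg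

lemma V_mono {n : ℕ} {A B : Set (Fin n → ℝ)} (h : A ⊆ B) (hB : IsCompact B) : V A ≤ V B :=
  ENNReal.toReal_mono hB.measure_ne_top (measure_mono h)

lemma V_pos {n : ℕ} {K : Set (Fin n → ℝ)} (hK : CB K) : 0 < V K :=
  ENNReal.toReal_pos (Measure.measure_pos_of_nonempty_interior volume hK.interior_nonempty).ne'
    hK.isCompact.measure_ne_top

lemma cb_of_pos {n : ℕ} {K : Set (Fin n → ℝ)} (h1 : IsCompact K) (h2 : Convex ℝ K)
    (h3 : 0 < V K) : CB K := by
  refine ⟨h1, h2, ?_⟩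
  by_contra hne
  rw [not_nonempty_iff_eq_empty] at hne
  have h4 : K ⊆ frontier K := by
    intro x hx
    refine ⟨subset_closure hx, ?_⟩
    rw [hne]
    exact fun h => h
  have h5 : volume K = 0 := measure_mono_null h4 (h2.addHaar_frontier volume)
  unfold V at h3
  rw [h5] at h3
  simp at h3

lemma sy_sub {n : ℕ} (K : Set (Fin n → ℝ)) (z : Fin n → ℝ) : sy K z ⊆ K := fun _ hx => hx.1

lemma sy_compact {n : ℕ} {K : Set (Fin n → ℝ)} (hK : IsCompact K) (z : Fin n → ℝ) :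
    IsCompact (sy K z) := by
  have : sy K z = K ∩ (fun x => z - x) ⁻¹' K := by
    ext x; rfl
  rw [this]
  exact hK.inter_right (hK.isClosed.preimage (by fun_prop))

lemma sy_convex {n : ℕ} {K : Set (Fin n → ℝ)} (hK : Convex ℝ K) (z : Fin n → ℝ) :
    Convex ℝ (sy K z) := by
  intro x hx y hy a b ha hb hab
  refine ⟨hK hx.1 hy.1 ha hb hab, ?_⟩
  have h := hK hx.2 hy.2 ha hb hab
  have e : z - (a • x + b • y) = a • (z - x) + b • (z - y) := by
    have : z = (a + b) • z := by rw [hab, one_smul]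
    nth_rewrite 1 [this]
    rw [add_smul, smul_sub, smul_sub]
    abel
  rw [e]
  exact h

lemma md_compact {n : ℕ} {K Y : Set (Fin n → ℝ)} (hK : IsCompact K) (h0 : 0 ∈ Y) :
    IsCompact (md K Y) := by
  have h1 : md K Y = ⋂ y ∈ Y, (fun x => x + y) ⁻¹' K := by
    ext x
    simp [md]
  have h2 : IsClosed (md K Y) := by
    rw [h1]
    exact isClosed_biInter fun y _ => hK.isClosed.preimage (by fun_prop)
  refine hK.of_isClosed_subset h2 ?_
  intro x hx
  have := hx 0 h0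
  simpa using this

lemma md_convex {n : ℕ} {K Y : Set (Fin n → ℝ)} (hK : Convex ℝ K) : Convex ℝ (md K Y) := by
  intro x hx x' hx' a b ha hb hab y hy
  have h := hK (hx y hy) (hx' y hy) ha hb hab
  have e : a • x + b • x' + y = a • (x + y) + b • (x' + y) := by
    have : y = (a + b) • y := by rw [hab, one_smul]
    nth_rewrite 1 [this]
    rw [add_smul, smul_add, smul_add]
    abel
  rw [e]
  exact h

/-- a maximal symmetric part which is nonempty -/
lemma exists_max {n : ℕ} (hU : S_USC) {K : Set (Fin n → ℝ)} (hK : IsCompact K) (hne : K.Nonempty) :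
    ∃ z, (∀ w, V (sy K w) ≤ V (sy K z)) ∧ (sy K z).Nonempty := by
  obtain ⟨z, hz⟩ := hU n K hK
  by_cases h : (sy K z).Nonempty
  · exact ⟨z, hz, h⟩
  · rw [not_nonempty_iff_eq_empty] at h
    obtain ⟨p, hp⟩ := hne
    refine ⟨(2 : ℝ) • p, fun w => (hz w).trans ?_, p, hp, ?_⟩
    · rw [h]
      have : V (∅ : Set (Fin n → ℝ)) = 0 := by simp [V]
      rw [this]
      exact V_nonneg _
    · have : (2 : ℝ) • p - p = p := by rw [two_smul]; abel
      rw [this]
      exact hp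

/-- a cube root -/
lemma cbrt (a : ℝ) (ha : 0 ≤ a) : ∃ x : ℝ, 0 ≤ x ∧ x ^ 3 = a := by
  refine ⟨a ^ ((1 : ℝ) / 3), Real.rpow_nonneg ha _, ?_⟩
  rw [← Real.rpow_natCast, ← Real.rpow_mul ha]
  norm_num

/-- the half difference body -/
def hd (K : Set (Fin 3 → ℝ)) : Set (Fin 3 → ℝ) := (1 / 2 : ℝ) • (K + -K)

lemma hd_compact {K : Set (Fin 3 → ℝ)} (hK : CB K) : IsCompact (hd K) :=
  (hK.isCompact.add hK.isCompact.neg).smul _

lemma hd_convex {K : Set (Fin 3 → ℝ)} (hK : CB K) : Convex ℝ (hd K) :=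
  (hK.convex.add hK.convex.neg).smul _

lemma hd_symm {K : Set (Fin 3 → ℝ)} {y : Fin 3 → ℝ} (hy : y ∈ hd K) : -y ∈ hd K := by
  obtain ⟨w, ⟨a, ha, b, hb, rfl⟩, rfl⟩ := hy
  refine ⟨-b + -a, ⟨-b, hb, -a, by simpa using ha, rfl⟩, ?_⟩
  simp only [smul_add, smul_neg, neg_add]
  abel

lemma hd_zero {K : Set (Fin 3 → ℝ)} (hK : CB K) : (0 : Fin 3 → ℝ) ∈ hd K := by
  obtain ⟨x, hx⟩ := hK.interior_nonempty
  have hx := interior_subset hx
  exact ⟨0, ⟨x, hx, -x, by simpa using hx, by simp⟩, by simp⟩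

lemma outer_eq {K : Set (Fin 3 → ℝ)} (hK : CB K) {t : ℝ} (ht : 0 ≤ t) :
    K + t • hd K = (1 + t / 2) • (K + ((t / 2) / (1 + t / 2)) • (-K)) := by
  have h1 : (1 + t / 2) • K = K + (t / 2) • K := by
    rw [hK.convex.add_smul zero_le_one (by linarith : (0:ℝ) ≤ t / 2), one_smul]
  have h2 : t • hd K = (t / 2) • K + (t / 2) • (-K) := by
    unfold hd
    rw [smul_smul, smul_add]
    ring_nf
  rw [smul_add, smul_smul, h1, h2, add_assoc]
  congr 2
  have : (1 + t / 2) ≠ 0 := by positivity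
  rw [mul_div_cancel₀ _ this]

/-- one step: data of a near-minimiser for the real analysis lemma -/
lemma step (hBM : S_BM) (hU : S_USC) (hI : S_INN) (hM : S_MAIN) (q : ℝ) (hq0 : 0 ≤ q)
    (hq : ∀ K : Set (Fin 3 → ℝ), CB K → ∀ z, (∀ w, V (sy K w) ≤ V (sy K z)) →
      q * V K ≤ V (sy K z)) (ε : ℝ) (K : Set (Fin 3 → ℝ)) (hK : CB K) (z : Fin 3 → ℝ)
    (hz : ∀ w, V (sy K w) ≤ V (sy K z)) (hKe : V (sy K z) ≤ (q + ε) * V K) (t : ℝ) (ht : 0 < t)
    (ht1 : t ≤ 1 / 10) :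
    ∃ m x z u : ℝ, -1 / 6 ≤ m ∧ m ≤ 3 ∧ 0 ≤ x ∧ 0 ≤ z ∧ x + t * z ≤ u ∧ u ^ 3 ≤ q + ε ∧
    q * (1 - 3 / 2 * (1 + m) * t - 10 * t ^ 2) ≤ x ^ 3 ∧ z ^ 3 = (1 + 3 * m) / 4 := by
  obtain ⟨c, p, -, hpoly, hc1, hc2⟩ := hM K hK
  have hv : 0 < V K := V_pos hK
  have hc9 : c ≤ 9 * V K := by linarith
  -- lower bound for c
  have hcl : -(V K) / 2 ≤ c := by
    have h1 := hpoly 1 zero_le_one
    rw [one_smul] at h1
    have h2 : V K ≤ V (K + -K) := by
      obtain ⟨x, hx⟩ := hK.interior_nonempty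
      have hx := interior_subset hx
      have h3 : V K = V ((-x) +ᵥ K) := by
        unfold V
        rw [measure_vadd]
      rw [h3]
      refine V_mono ?_ (hK.isCompact.add hK.isCompact.neg)
      rintro _ ⟨y, hy, rfl⟩
      refine ⟨y, hy, -x, by simpa using hx, ?_⟩
      simp [vadd_eq_add, add_comm]
    nlinarith
  set v := V K with hvdef
  set m := c / (3 * v) with hm
  have hmc : c = 3 * m * v := by
    rw [hm]; field_simp
  have hm3 : m ≤ 3 := by
    rw [hm, div_le_iff₀ (by positivity)]; linarith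
  have hm0 : -1 / 6 ≤ m := by
    rw [hm, le_div_iff₀ (by positivity)]; linarith
  -- volumes
  have hVY : V (hd K) = (v + c) / 4 := by
    unfold hd
    rw [V_smul _ (by norm_num)]
    have h1 := hpoly 1 zero_le_one
    rw [one_smul] at h1
    rw [h1]; ring
  have hVo : V (K + t • hd K) = v * ((1 + t / 2) ^ 3 + (t / 2) ^ 3)
      + c * ((1 + t / 2) ^ 2 * (t / 2) + (1 + t / 2) * (t / 2) ^ 2) := by
    rw [outer_eq hK ht.le, V_smul _ (by positivity), hpoly _ (by positivity)]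
    have : (1 + t / 2) ≠ 0 := by positivity
    field_simp
  -- the inner parallel body
  have hY0 : (0 : Fin 3 → ℝ) ∈ t • hd K := ⟨0, hd_zero hK, by simp⟩
  have hYc : IsCompact (t • hd K) := (hd_compact hK).smul _
  have hin := hI 3 K (t • hd K) hK.isCompact hK.convex (hK.interior_nonempty.mono interior_subset)
    hYc ((hd_convex hK).smul _) hY0
  have hKc : IsCompact (md K (t • hd K)) := md_compact hK.isCompact hY0
  have hKv : Convex ℝ (md K (t • hd K)) := md_convex hK.convex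
  have hlow : v * (1 - 3 / 2 * (1 + m) * t - 10 * t ^ 2) ≤ V (md K (t • hd K)) := by
    have h1 : V (K + t • hd K) ≤ v * (1 + 3 / 2 * (1 + m) * t + 10 * t ^ 2) := by
      rw [hVo, hmc]
      have h2 : v * ((1 + t / 2) ^ 3 + (t / 2) ^ 3)
        + 3 * m * v * ((1 + t / 2) ^ 2 * (t / 2) + (1 + t / 2) * (t / 2) ^ 2)
        = v * (1 + 3 / 2 * (1 + m) * t + (9 / 4 * m + 3 / 4) * t ^ 2 + (1 / 4 + 3 / 4 * m) * t ^ 3) := by
        ring
      rw [h2]
      refine mul_le_mul_of_nonneg_left ?_ hv.le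
      nlinarith [mul_nonneg (sq_nonneg t) ht.le, sq_nonneg t,
        mul_nonneg (sq_nonneg t) (by linarith : 0 ≤ 1 / 10 - t),
        mul_nonneg (sq_nonneg t) (by linarith : 0 ≤ 3 - m),
        mul_nonneg (mul_nonneg (sq_nonneg t) ht.le) (by linarith : 0 ≤ 3 - m)]
    linarith
  have hw : 0 < 1 - 3 / 2 * (1 + m) * t - 10 * t ^ 2 := by
    nlinarith [mul_nonneg ht.le (by linarith : 0 ≤ 3 - m), mul_nonneg ht.le (by linarith : 0 ≤ 1/10 - t)]
  have hKpos : 0 < V (md K (t • hd K)) := lt_of_lt_of_le (mul_pos hv hw) hlow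
  have hKcb : CB (md K (t • hd K)) := cb_of_pos hKc hKv hKpos
  obtain ⟨z', hz', hne⟩ := exists_max hU hKc (hKcb.interior_nonempty.mono interior_subset)
  have hqK := hq _ hKcb z' hz'
  -- roots
  obtain ⟨x, hx0, hx⟩ := cbrt (V (sy (md K (t • hd K)) z') / v) (by have := V_nonneg (sy (md K (t • hd K)) z'); positivity)
  obtain ⟨y, hy0, hy⟩ := cbrt ((1 + 3 * m) / 4) (by linarith)
  obtain ⟨u, hu0, hu⟩ := cbrt (V (sy K z) / v) (by have := V_nonneg (sy K z); positivity)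
  obtain ⟨r, hr0, hr⟩ := cbrt v hv.le
  have hrpos : 0 < r := by
    rcases hr0.lt_or_eq with h | h
    · exact h
    · rw [← h] at hr; norm_num at hr; linarith
  refine ⟨m, x, y, u, hm0, hm3, hx0, hy0, ?_, ?_, ?_, hy⟩
  · have hb := hBM 3 (sy (md K (t • hd K)) z') (t • hd K) (sy_compact hKc z') hYc hne ⟨0, hY0⟩
      (x * r) (t * y * r) (by positivity) (by positivity) (by
        rw [mul_pow, hx, hr]; field_simp; exact le_rfl) (by
        rw [V_smul _ ht.le, hVY, mul_pow, mul_pow, hy, hr, hmc]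
        apply le_of_eq; ring)
    have hsub : sy (md K (t • hd K)) z' + t • hd K ⊆ sy K z' := by
      rintro _ ⟨a, ha, b, hb, rfl⟩
      refine ⟨ha.1 b hb, ?_⟩
      have hnb : -b ∈ t • hd K := by
        obtain ⟨b', hb', rfl⟩ := hb
        exact ⟨-b', hd_symm hb', by simp⟩
      have := ha.2 (-b) hnb
      have e : z' - (a + b) = z' - a + -b := by abel
      show z' - (a + b) ∈ K
      rw [e]
      exact this
    have h1 := V_mono hsub (sy_compact hK.isCompact z')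
    have h2 := hz z'
    have h3 : V (sy K z) = (u * r) ^ 3 := by
      rw [mul_pow, hu, hr]; field_simp
    have h4 : ((x + t * y) * r) ^ 3 ≤ (u * r) ^ 3 := by
      rw [← h3]
      have e : (x + t * y) * r = x * r + t * y * r := by ring
      rw [e]
      linarith
    have h5 : (x + t * y) * r ≤ u * r := by
      exact le_of_pow_le_pow_left₀ (by norm_num) (by positivity) h4
    exact le_of_mul_le_mul_right h5 hrpos
  · rw [hu, div_le_iff₀ hv]
    exact hKe
  · rw [hx, le_div_iff₀ hv]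
    calc q * (1 - 3 / 2 * (1 + m) * t - 10 * t ^ 2) * v
        = q * (v * (1 - 3 / 2 * (1 + m) * t - 10 * t ^ 2)) := by ring
      _ ≤ q * V (md K (t • hd K)) := mul_le_mul_of_nonneg_left hlow hq0
      _ ≤ _ := hqK

theorem t_KB3 (hBM : S_BM) (hU : S_USC) (hI : S_INN) (hR : S_REAL) (hM : S_MAIN) : S_KB3 := by
  set R : Set ℝ := {r | ∃ K : Set (Fin 3 → ℝ), CB K ∧ ∃ z, (∀ w, V (sy K w) ≤ V (sy K z)) ∧
    r = V (sy K z) / V K} with hRdef
  have hcube : CB (Icc (0 : Fin 3 → ℝ) 1) := by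
    refine ⟨isCompact_Icc, convex_Icc _ _, ?_⟩
    rw [← pi_univ_Icc, interior_pi_set finite_univ]
    exact ⟨fun _ => 1 / 2, by
      intro i _
      simp only [Pi.zero_apply, Pi.one_apply, interior_Icc, mem_Ioo]
      norm_num⟩
  have hbdd : BddBelow R := ⟨0, by
    rintro _ ⟨K, hK, z, -, rfl⟩
    exact div_nonneg (V_nonneg _) (V_nonneg _)⟩
  have hne : R.Nonempty := by
    obtain ⟨z, hz⟩ := hU 3 _ hcube.isCompact
    exact ⟨_, _, hcube, z, hz, rfl⟩
  set q := sInf R with hqdef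
  have hq0 : 0 ≤ q := le_csInf hne (by
    rintro _ ⟨K, hK, z, -, rfl⟩
    exact div_nonneg (V_nonneg _) (V_nonneg _))
  have hq1 : q ≤ 1 := by
    obtain ⟨z, hz⟩ := hU 3 _ hcube.isCompact
    refine (csInf_le hbdd ⟨_, hcube, z, hz, rfl⟩).trans ?_
    rw [div_le_one (V_pos hcube)]
    exact V_mono (sy_sub _ _) hcube.isCompact
  have hq : ∀ K : Set (Fin 3 → ℝ), CB K → ∀ z, (∀ w, V (sy K w) ≤ V (sy K z)) →
      q * V K ≤ V (sy K z) := by
    intro K hK z hz
    have := csInf_le hbdd (show V (sy K z) / V K ∈ R from ⟨K, hK, z, hz, rfl⟩)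
    rwa [← hqdef, le_div_iff₀ (V_pos hK)] at this
  have key : 5 / 16 ≤ q := by
    refine hR q hq0 hq1 ?_
    intro ε hε t ht ht1
    obtain ⟨_, ⟨K, hK, z, hz, rfl⟩, hlt⟩ := exists_lt_of_csInf_lt hne (show sInf R < q + ε by linarith)
    rw [div_lt_iff₀ (V_pos hK)] at hlt
    exact step hBM hU hI hM q hq0 hq ε K hK z hz hlt.le t ht ht1
  intro K hK
  obtain ⟨z, hz⟩ := hU 3 K hK.isCompact
  refine ⟨z, ?_⟩
  have := hq K hK z hz
  have hv := V_pos hK
  nlinarith

end Pool.Agent.H748R2.KB
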