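import Pool.Agent.H404R2.TH.Spec

set_option autoImplicit false

/-!
helper748: largest centrally symmetric body inside a convex body (Kovner-Besicovitch measure of
symmetry) and volume of the Blaschke body.  Statements only.  Coordinates `Fin n → ℝ`.
-/

open MeasureTheory Set Pointwise

namespace Pool.Agent.H748R2.KB

open Pool.Agent.H404R2.TH (CB V)

/-- the intersection of `K` with its reflection in the point `z / 2` -/
def sy {n : ℕ} (K : Set (Fin n → ℝ)) (z : Fin n → ℝ) : Set (Fin n → ℝ) := {x | x ∈ K ∧ z - x ∈ K}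

/-- the intersection of `K` with its translate by `-z` -/
def co {n : ℕ} (K : Set (Fin n → ℝ)) (z : Fin n → ℝ) : Set (Fin n → ℝ) := {x | x ∈ K ∧ x + z ∈ K}

/-- inner parallel body (Minkowski difference) -/
def md {n : ℕ} (K Y : Set (Fin n → ℝ)) : Set (Fin n → ℝ) := {x | ∀ y ∈ Y, x + y ∈ K}

/-- Brunn-Minkowski inequality, root-free form -/
def S_BM : Prop := ∀ (n : ℕ) (A B : Set (Fin n → ℝ)), IsCompact A → IsCompact B → A.Nonempty →
  B.Nonempty → ∀ a b : ℝ, 0 ≤ a → 0 ≤ b → a ^ n ≤ V A → b ^ n ≤ V B → (a + b) ^ n ≤ V (A + B)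

/-- the largest symmetric part exists -/
def S_USC : Prop := ∀ (n : ℕ) (K : Set (Fin n → ℝ)), IsCompact K →
  ∃ z, ∀ w, V (sy K w) ≤ V (sy K z)

/-- for polytopes: the volume lost by the inner parallel body is at most the volume gained by the
outer parallel body -/
def S_POLYT : Prop := ∀ (n m : ℕ) (l : Fin m → ((Fin n → ℝ) →L[ℝ] ℝ)) (h : Fin m → ℝ)
  (Y : Set (Fin n → ℝ)), IsCompact {x | ∀ i, l i x ≤ h i} → IsCompact Y → Convex ℝ Y → 0 ∈ Y →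
  2 * V {x | ∀ i, l i x ≤ h i} ≤
    V (md {x | ∀ i, l i x ≤ h i} Y) + V ({x | ∀ i, l i x ≤ h i} + Y)

/-- polytope between a compact convex set and its neighbourhood -/
def S_APP : Prop := ∀ (n : ℕ) (K : Set (Fin n → ℝ)), IsCompact K → Convex ℝ K → K.Nonempty →
  ∀ δ > (0 : ℝ), ∃ (m : ℕ) (l : Fin m → ((Fin n → ℝ) →L[ℝ] ℝ)) (h : Fin m → ℝ),
    K ⊆ {x | ∀ i, l i x ≤ h i} ∧ {x | ∀ i, l i x ≤ h i} ⊆ Metric.cthickening δ K

/-- the same inequality for all compact convex sets -/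
def S_INN : Prop := ∀ (n : ℕ) (K Y : Set (Fin n → ℝ)), IsCompact K → Convex ℝ K → K.Nonempty →
  IsCompact Y → Convex ℝ Y → 0 ∈ Y → 2 * V K ≤ V (md K Y) + V (K + Y)

/-- real analysis at the end of the argument for dimension three -/
def S_REAL : Prop := ∀ q : ℝ, 0 ≤ q → q ≤ 1 → (∀ ε > (0 : ℝ), ∀ t : ℝ, 0 < t → t ≤ 1 / 10 →
  ∃ m x z u : ℝ, -1 / 6 ≤ m ∧ m ≤ 3 ∧ 0 ≤ x ∧ 0 ≤ z ∧ x + t * z ≤ u ∧ u ^ 3 ≤ q + ε ∧
    q * (1 - 3 / 2 * (1 + m) * t - 10 * t ^ 2) ≤ x ^ 3 ∧ z ^ 3 = (1 + 3 * m) / 4) → 5 / 16 ≤ q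

/-- the three-dimensional theorem -/
def S_KB3 : Prop := ∀ K : Set (Fin 3 → ℝ), CB K → ∃ z, 5 / 16 * V K ≤ V (sy K z)

/-! ### All dimensions: the second moment of the convolution square -/

/-- `∫ |K ∩ (z - K)| dz = |K| ^ 2` -/
def S_INT1 : Prop := ∀ (n : ℕ) (K : Set (Fin n → ℝ)), IsCompact K →
  ∫⁻ z, volume (sy K z) = volume K ^ 2

/-- `∫ |K ∩ (K - z)| dz = |K| ^ 2` -/
def S_INT2 : Prop := ∀ (n : ℕ) (K : Set (Fin n → ℝ)), IsCompact K →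
  ∫⁻ z, volume (co K z) = volume K ^ 2

/-- `∫ |K ∩ (z - K)|^2 dz = ∫ |K ∩ (K - z)|^2 dz` -/
def S_L2 : Prop := ∀ (n : ℕ) (K : Set (Fin n → ℝ)), IsCompact K →
  ∫⁻ z, volume (sy K z) ^ 2 = ∫⁻ z, volume (co K z) ^ 2

/-- radial concavity of the root of the covariogram -/
def S_RAD : Prop := ∀ (n : ℕ) (K : Set (Fin n → ℝ)), CB K → ∀ (z : Fin n → ℝ) (t s : ℝ),
  0 ≤ t → t ≤ 1 → 0 < s → s ≤ 1 → s ^ n * V K ≤ V (co K z) →
  (1 - t * (1 - s)) ^ n * V K ≤ V (co K (t • z))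

/-- Chebyshev inequality with beta weights, `w s = λ s / (1 - s)^n` nondecreasing -/
def S_CHEB : Prop := ∀ (n : ℕ), 0 < n → ∀ (lam : ℝ → ℝ), (∀ s, 0 ≤ lam s) →
  (∃ C, ∀ s, lam s ≤ C) → AntitoneOn lam (Ioo 0 1) →
  (∀ s s' : ℝ, 0 < s → s ≤ s' → s' < 1 → (1 - s') ^ n * lam s ≤ (1 - s) ^ n * lam s') →
  ((2 * n).factorial : ℝ) ^ 2 * ∫ s in Ioo (0:ℝ) 1, n * s ^ (n - 1) * lam s ≤
    ((n.factorial : ℝ) * (3 * n).factorial) * ∫ s in Ioo (0:ℝ) 1, 2 * n * s ^ (2 * n - 1) * lam s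

/-- lower bound for the second moment of the covariogram -/
def S_COV : Prop := ∀ (n : ℕ), 0 < n → ∀ (K : Set (Fin n → ℝ)), CB K →
  ((2 * n).factorial : ℝ) ^ 2 * V K ^ 3 ≤
    ((n.factorial : ℝ) * (3 * n).factorial) * ∫ z, V (co K z) ^ 2

/-- symmetric part in all dimensions -/
def S_KBN : Prop := ∀ (n : ℕ), 0 < n → ∀ (K : Set (Fin n → ℝ)), CB K →
  ∃ z, ((2 * n).factorial : ℝ) ^ 2 * V K ≤ ((n.factorial : ℝ) * (3 * n).factorial) * V (sy K z)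

/-! ### The Blaschke body -/

/-- `v` is the mixed volume `V_1(K, Y)`, the first variation of the volume (divided by `n`) -/
def HasV1 {n : ℕ} (K Y : Set (Fin n → ℝ)) (v : ℝ) : Prop :=
  Filter.Tendsto (fun t : ℝ => (V (K + t • Y) - V K) / (n * t)) (nhdsWithin 0 (Ioi 0)) (nhds v)

/-- `B` is the Blaschke body of `K`: its surface area measure is the mean of those of `K` and `-K`,
expressed by means of mixed volumes -/
def IsBlaschke {n : ℕ} (B K : Set (Fin n → ℝ)) : Prop :=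
  ∀ Y, CB Y → ∀ a b : ℝ, HasV1 K Y a → HasV1 (-K) Y b → HasV1 B Y ((a + b) / 2)

/-- a symmetric body inside `K` bounds the Blaschke body -/
def S_BLA : Prop := ∀ (n : ℕ), 2 ≤ n → ∀ (K B : Set (Fin n → ℝ)), CB K → CB B → IsBlaschke B K →
  ∀ z, V B ^ (n - 1) * V (sy K z) ≤ V K ^ n

end Pool.Agent.H748R2.KB
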