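import Pool.Agent.H748R2.KB.Spec

set_option autoImplicit false

/-! Polytope between a compact convex set and its neighbourhood. -/

open MeasureTheory Set Pointwise

namespace Pool.Agent.H748R2.KB

open Pool.Agent.H404R2.TH (CB V)

theorem APP_aux (n : ℕ) (K : Set (Fin n → ℝ)) (hK : IsCompact K) (hc : Convex ℝ K)
    (δ : ℝ) (hδ : 0 < δ) : ∃ (ι : Type) (_ : Fintype ι)
    (l : ι → ((Fin n → ℝ) →L[ℝ] ℝ)) (h : ι → ℝ),
    K ⊆ {x | ∀ i, l i x ≤ h i} ∧ {x | ∀ i, l i x ≤ h i} ⊆ Metric.cthickening δ K := by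
  classical
  obtain ⟨R, hR⟩ := hK.isBounded.subset_closedBall (0 : Fin n → ℝ)
  set R' := max R 0 with hR'
  have hR0 : 0 ≤ R' := le_max_right _ _
  have hKR : K ⊆ Metric.closedBall 0 R' := hR.trans (Metric.closedBall_subset_closedBall
    (le_max_left _ _))
  set W := Metric.thickening δ K with hW
  have hWo : IsOpen W := Metric.isOpen_thickening
  have hKW : K ⊆ W := Metric.self_subset_thickening hδ K
  have hS : IsCompact (Metric.closedBall (0 : Fin n → ℝ) R' \ W) :=
    (isCompact_closedBall _ _).diff hWo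
  have hsep : ∀ x : Fin n → ℝ, x ∉ K → ∃ (f : (Fin n → ℝ) →L[ℝ] ℝ) (u : ℝ),
      (∀ a ∈ K, f a < u) ∧ u < f x := fun x hx =>
    geometric_hahn_banach_closed_point hc hK.isClosed hx
  choose! f u hf1 hf2 using hsep
  obtain ⟨t, ht1, ht2⟩ := hS.elim_nhds_subcover (fun x => {y | u x < f x y}) (by
    intro x hx
    have hxK : x ∉ K := fun h => hx.2 (hKW h)
    exact (isOpen_lt continuous_const (f x).continuous).mem_nhds (hf2 x hxK))
  refine ⟨(Fin n × Bool) ⊕ t, inferInstance, Sum.elim
    (fun p => if p.2 then ContinuousLinearMap.proj p.1 else - ContinuousLinearMap.proj p.1)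
    (fun x => f x), Sum.elim (fun _ => R') (fun x => u x), ?_, ?_⟩
  · intro y hy i
    rcases i with ⟨i, b⟩ | x
    · have h1 := hKR hy
      rw [mem_closedBall_zero_iff, pi_norm_le_iff_of_nonneg hR0] at h1
      have h2 := abs_le.1 (h1 i)
      simp only [Sum.elim_inl]
      cases b
      · show - y i ≤ R'
        linarith
      · show y i ≤ R'
        linarith
    · have hxK : (x : Fin n → ℝ) ∉ K := fun h => (ht1 x x.2).2 (hKW h)
      exact (hf1 x hxK y hy).le
  · intro y hy
    apply Metric.thickening_subset_cthickening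
    by_contra hyW
    have hball : y ∈ Metric.closedBall (0 : Fin n → ℝ) R' := by
      rw [mem_closedBall_zero_iff, pi_norm_le_iff_of_nonneg hR0]
      intro i
      rw [Real.norm_eq_abs, abs_le]
      have h1 := hy (Sum.inl (i, true))
      have h2 := hy (Sum.inl (i, false))
      have h1' : y i ≤ R' := h1
      have h2' : - y i ≤ R' := h2
      constructor <;> linarith
    have h3 := ht2 ⟨hball, hyW⟩
    rw [mem_iUnion₂] at h3
    obtain ⟨x, hx, hxy⟩ := h3
    have h4 := hy (Sum.inr ⟨x, hx⟩)
    have h4' : f x y ≤ u x := h4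
    have h5 : u x < f x y := hxy
    linarith

theorem t_APP : S_APP := by
  intro n K hK hc _ δ hδ
  obtain ⟨ι, hι, l, h, h1, h2⟩ := APP_aux n K hK hc δ hδ
  have e := Fintype.equivFin ι
  refine ⟨Fintype.card ι, fun i => l (e.symm i), fun i => h (e.symm i), ?_, ?_⟩
  · intro x hx i
    exact h1 hx (e.symm i)
  · intro x hx
    apply h2
    intro i
    have := hx (e i)
    simpa using this

end Pool.Agent.H748R2.KB
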