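import Pool.Agent.H748R2.KB.Spec

set_option autoImplicit false

/-! Chebyshev inequality with beta weights. -/

open MeasureTheory Set Pointwise Filter Topology

namespace Pool.Agent.H748R2.KB

theorem CHEB_step (a b : ℕ) : ((a : ℝ) + 1) * ∫ s in (0:ℝ)..1, s ^ a * (1 - s) ^ (b + 1) =
    ((b : ℝ) + 1) * ∫ s in (0:ℝ)..1, s ^ (a + 1) * (1 - s) ^ b := by
  have h1 : ∀ s : ℝ, HasDerivAt (fun s : ℝ => s ^ (a + 1) * (1 - s) ^ (b + 1))
      (((a : ℝ) + 1) * (s ^ a * (1 - s) ^ (b + 1)) -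
        ((b : ℝ) + 1) * (s ^ (a + 1) * (1 - s) ^ b)) s := by
    intro s
    have e1 : HasDerivAt (fun s : ℝ => s ^ (a + 1)) (((a + 1 : ℕ) : ℝ) * s ^ a) s :=
      hasDerivAt_pow (a + 1) s
    have e2 : HasDerivAt (fun s : ℝ => (1 - s) ^ (b + 1))
        (((b + 1 : ℕ) : ℝ) * (1 - s) ^ b * (0 - 1)) s :=
      ((hasDerivAt_const s (1:ℝ)).sub (hasDerivAt_id s)).pow (b + 1)
    have e3 := e1.mul e2
    have e4 : ((a : ℝ) + 1) * (s ^ a * (1 - s) ^ (b + 1)) -
        ((b : ℝ) + 1) * (s ^ (a + 1) * (1 - s) ^ b) =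
        ((a + 1 : ℕ) : ℝ) * s ^ a * (1 - s) ^ (b + 1) +
          s ^ (a + 1) * (((b + 1 : ℕ) : ℝ) * (1 - s) ^ b * (0 - 1)) := by
      push_cast
      ring
    rw [e4]
    exact e3
  have h2 := intervalIntegral.integral_eq_sub_of_hasDerivAt (a := (0:ℝ)) (b := 1)
    (f := fun s : ℝ => s ^ (a + 1) * (1 - s) ^ (b + 1)) (fun s _ => h1 s)
    ((by fun_prop : Continuous fun s : ℝ => (((a : ℝ) + 1) * (s ^ a * (1 - s) ^ (b + 1)) -
        ((b : ℝ) + 1) * (s ^ (a + 1) * (1 - s) ^ b))).intervalIntegrable _ _)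
  rw [intervalIntegral.integral_sub ((by fun_prop : Continuous fun s : ℝ =>
      (((a : ℝ) + 1) * (s ^ a * (1 - s) ^ (b + 1)))).intervalIntegrable _ _)
    ((by fun_prop : Continuous fun s : ℝ =>
      ((b : ℝ) + 1) * (s ^ (a + 1) * (1 - s) ^ b)).intervalIntegrable _ _),
    intervalIntegral.integral_const_mul, intervalIntegral.integral_const_mul] at h2
  have h3 : (1:ℝ) ^ (a + 1) * (1 - 1) ^ (b + 1) = 0 := by simp
  have h4 : (0:ℝ) ^ (a + 1) * (1 - 0) ^ (b + 1) = 0 := by simp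
  rw [h3, h4] at h2
  linarith

theorem CHEB_beta (b : ℕ) : ∀ a : ℕ, (∫ s in (0:ℝ)..1, s ^ a * (1 - s) ^ b) *
    ((a + b + 1).factorial : ℝ) = (a.factorial : ℝ) * (b.factorial : ℝ) := by
  induction b with
  | zero =>
    intro a
    have h1 : (∫ s in (0:ℝ)..1, s ^ a * (1 - s) ^ 0) = 1 / ((a : ℝ) + 1) := by
      simp [integral_pow]
    rw [h1, add_zero, Nat.factorial_succ]
    push_cast
    field_simp
    simp
  | succ b ih =>
    intro a
    have h1 := CHEB_step a b
    have h2 := ih (a + 1)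
    have h3 : (a + (b + 1) + 1) = (a + 1 + b + 1) := by ring
    rw [h3]
    have h4 : ((a : ℝ) + 1) ≠ 0 := by positivity
    apply mul_left_cancel₀ h4
    rw [← mul_assoc, h1, mul_assoc, h2, Nat.factorial_succ, Nat.factorial_succ]
    push_cast
    ring

theorem CHEB_Ioo (a b : ℕ) : (∫ s in Ioo (0:ℝ) 1, s ^ a * (1 - s) ^ b) *
    ((a + b + 1).factorial : ℝ) = (a.factorial : ℝ) * (b.factorial : ℝ) := by
  rw [← integral_Ioc_eq_integral_Ioo, ← intervalIntegral.integral_of_le zero_le_one]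
  exact CHEB_beta b a

theorem CHEB_fact (n k : ℕ) : (n + k).factorial * (2 * n).factorial ≤
    n.factorial * (2 * n + k).factorial := by
  induction k with
  | zero => simp
  | succ k ih =>
    rw [← add_assoc, ← add_assoc, Nat.factorial_succ, Nat.factorial_succ]
    calc (n + k + 1) * (n + k).factorial * (2 * n).factorial
        = (n + k + 1) * ((n + k).factorial * (2 * n).factorial) := by ring
      _ ≤ (2 * n + k + 1) * (n.factorial * (2 * n + k).factorial) :=
          Nat.mul_le_mul (by omega) ih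
      _ = _ := by ring

theorem t_CHEB : S_CHEB := by
  intro n hn lam hlam ⟨Cb, hCb⟩ hanti hw
  set c : ℝ := ((2 * n).factorial : ℝ) ^ 2 / ((n.factorial : ℝ) * (3 * n).factorial) with hc
  have hf1 : (0 : ℝ) < (n.factorial : ℝ) := by exact_mod_cast Nat.factorial_pos _
  have hf2 : (0 : ℝ) < ((2 * n).factorial : ℝ) := by exact_mod_cast Nat.factorial_pos _
  have hf3 : (0 : ℝ) < ((3 * n).factorial : ℝ) := by exact_mod_cast Nat.factorial_pos _
  have hc0 : 0 < c := by positivity
  have hc1 : c ≤ 1 := by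
    rw [hc, div_le_one (by positivity)]
    have := CHEB_fact n n
    rw [show n + n = 2 * n by ring, show 2 * n + n = 3 * n by ring] at this
    rw [pow_two]
    exact_mod_cast this
  set s0 : ℝ := (c / 2) ^ ((n : ℝ)⁻¹) with hs0
  have hs0n : s0 ^ n = c / 2 := Real.rpow_inv_natCast_pow (by positivity) (by omega)
  have hs0pos : 0 < s0 := Real.rpow_pos_of_pos (by positivity) _
  have hs01 : s0 < 1 := by
    by_contra h
    push Not at h
    have := one_le_pow₀ (n := n) h
    rw [hs0n] at this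
    linarith
  have h1s0 : 0 < (1 - s0) ^ n := pow_pos (by linarith) n
  set w0 : ℝ := lam s0 / (1 - s0) ^ n with hw0
  have hw0e : w0 * (1 - s0) ^ n = lam s0 := by
    rw [hw0]
    field_simp
  -- pointwise inequality
  have hpt : ∀ s ∈ Ioo (0:ℝ) 1, w0 * (2 * n * (s ^ (2 * n - 1) * (1 - s) ^ n) -
      c * (n * (s ^ (n - 1) * (1 - s) ^ n))) ≤
      2 * n * s ^ (2 * n - 1) * lam s - c * (n * s ^ (n - 1) * lam s) := by
    intro s hs
    have e1 : s ^ (2 * n - 1) = s ^ (n - 1) * s ^ n := by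
      rw [← pow_add]
      congr 1
      omega
    have e2 : 0 ≤ (lam s - w0 * (1 - s) ^ n) * (2 * s ^ n - c) := by
      rcases le_total s0 s with h | h
      · have k1 := hw s0 s hs0pos h hs.2
        have k2 : s0 ^ n ≤ s ^ n := pow_le_pow_left₀ hs0pos.le h n
        rw [hs0n] at k2
        apply mul_nonneg _ (by linarith)
        rw [← hw0e] at k1
        have k3 : (1 - s0) ^ n * (w0 * (1 - s) ^ n) ≤ (1 - s0) ^ n * lam s := by
          calc (1 - s0) ^ n * (w0 * (1 - s) ^ n) = (1 - s) ^ n * (w0 * (1 - s0) ^ n) := by ring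
            _ ≤ _ := k1
        have k4 := le_of_mul_le_mul_left k3 h1s0
        linarith
      · have k1 := hw s s0 hs.1 h hs01
        have k2 : s ^ n ≤ s0 ^ n := pow_le_pow_left₀ hs.1.le h n
        rw [hs0n] at k2
        apply mul_nonneg_of_nonpos_of_nonpos _ (by linarith)
        rw [← hw0e] at k1
        have k3 : (1 - s0) ^ n * lam s ≤ (1 - s0) ^ n * (w0 * (1 - s) ^ n) := by
          calc (1 - s0) ^ n * lam s ≤ (1 - s) ^ n * (w0 * (1 - s0) ^ n) := k1
            _ = _ := by ring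
        have k4 := le_of_mul_le_mul_left k3 h1s0
        linarith
    have e3 : 0 ≤ (n : ℝ) * s ^ (n - 1) := mul_nonneg (Nat.cast_nonneg n) (pow_nonneg hs.1.le _)
    have e4 := mul_nonneg e3 e2
    rw [e1]
    nlinarith [e4]
  -- integrability
  have hmeas : AEStronglyMeasurable lam (volume.restrict (Ioo (0:ℝ) 1)) :=
    (aemeasurable_restrict_of_antitoneOn measurableSet_Ioo hanti).aestronglyMeasurable
  have hint : ∀ (k : ℕ) (d : ℝ), IntegrableOn (fun s : ℝ => d * s ^ k * lam s) (Ioo (0:ℝ) 1) := by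
    intro k d
    refine Integrable.of_bound ?_ (|d| * |Cb|) ?_
    · exact (by fun_prop : Continuous fun s : ℝ => d * s ^ k).aestronglyMeasurable.mul hmeas
    · rw [ae_restrict_iff' measurableSet_Ioo]
      refine Eventually.of_forall fun s hs => ?_
      rw [norm_mul, norm_mul, Real.norm_eq_abs, Real.norm_eq_abs, Real.norm_eq_abs]
      have k1 : |s ^ k| ≤ 1 := by
        rw [abs_of_nonneg (pow_nonneg hs.1.le _)]
        exact pow_le_one₀ hs.1.le hs.2.le
      have k2 : |lam s| ≤ |Cb| := by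
        rw [abs_of_nonneg (hlam s)]
        exact (hCb s).trans (le_abs_self _)
      calc |d| * |s ^ k| * |lam s| ≤ |d| * 1 * |Cb| := by gcongr
        _ = |d| * |Cb| := by ring
  have hcint : ∀ (k l : ℕ), IntegrableOn (fun s : ℝ => s ^ k * (1 - s) ^ l) (Ioo (0:ℝ) 1) := by
    intro k l
    have h1 : IntegrableOn (fun s : ℝ => s ^ k * (1 - s) ^ l) (Icc (0:ℝ) 1) :=
      (by fun_prop : Continuous fun s : ℝ => s ^ k * (1 - s) ^ l).continuousOn.integrableOn_Icc
    exact h1.mono_set Ioo_subset_Icc_self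
  set A := ∫ s in Ioo (0:ℝ) 1, n * s ^ (n - 1) * lam s with hA
  set B := ∫ s in Ioo (0:ℝ) 1, 2 * n * s ^ (2 * n - 1) * lam s with hB
  have hI1 := CHEB_Ioo (n - 1) n
  have hI2 := CHEB_Ioo (2 * n - 1) n
  rw [show n - 1 + n + 1 = 2 * n by omega] at hI1
  rw [show 2 * n - 1 + n + 1 = 3 * n by omega] at hI2
  set I1 := ∫ s in Ioo (0:ℝ) 1, s ^ (n - 1) * (1 - s) ^ n with hI1d
  set I2 := ∫ s in Ioo (0:ℝ) 1, s ^ (2 * n - 1) * (1 - s) ^ n with hI2d
  have hnf : (n : ℝ) * ((n - 1).factorial : ℝ) = (n.factorial : ℝ) := by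
    exact_mod_cast Nat.mul_factorial_pred (by omega)
  have h2nf : (2 * n : ℝ) * ((2 * n - 1).factorial : ℝ) = ((2 * n).factorial : ℝ) := by
    exact_mod_cast Nat.mul_factorial_pred (by omega)
  have hzero : 2 * n * I2 - c * (n * I1) = 0 := by
    have e1 : 2 * n * I2 * ((3 * n).factorial : ℝ) =
        ((2 * n).factorial : ℝ) * (n.factorial : ℝ) := by
      rw [mul_assoc, hI2, ← h2nf]
      ring
    have e2 : n * I1 * ((2 * n).factorial : ℝ) = (n.factorial : ℝ) * (n.factorial : ℝ) := by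
      rw [mul_assoc, hI1, ← hnf]
      ring
    have e3 : 2 * n * I2 = ((2 * n).factorial : ℝ) * (n.factorial : ℝ) /
        ((3 * n).factorial : ℝ) := by
      rw [eq_div_iff hf3.ne', e1]
    have e4 : n * I1 = (n.factorial : ℝ) * (n.factorial : ℝ) / ((2 * n).factorial : ℝ) := by
      rw [eq_div_iff hf2.ne', e2]
    rw [e3, e4, hc]
    field_simp
    ring
  have hmono : ∫ s in Ioo (0:ℝ) 1, w0 * (2 * n * (s ^ (2 * n - 1) * (1 - s) ^ n) -
      c * (n * (s ^ (n - 1) * (1 - s) ^ n))) ≤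
      ∫ s in Ioo (0:ℝ) 1, (2 * n * s ^ (2 * n - 1) * lam s - c * (n * s ^ (n - 1) * lam s)) := by
    apply setIntegral_mono_on _ _ measurableSet_Ioo hpt
    · exact (((hcint _ _).const_mul _).sub (((hcint _ _).const_mul _).const_mul _)).const_mul _
    · exact (hint _ _).sub ((hint _ _).const_mul _)
  rw [integral_const_mul, integral_sub ((hcint _ _).const_mul _)
      (((hcint _ _).const_mul _).const_mul _), integral_const_mul, integral_const_mul,
    integral_const_mul, integral_sub (hint _ _) ((hint _ _).const_mul _),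
    integral_const_mul, ← hI1d, ← hI2d, hzero, mul_zero] at hmono
  have hfin : c * A ≤ B := by linarith
  rw [hc, div_mul_eq_mul_div, div_le_iff₀ (by positivity)] at hfin
  linarith

end Pool.Agent.H748R2.KB
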