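import Pool.Agent.H748R2.KB.Spec

/-! COV: lower bound for the second moment of the covariogram (helper473). -/

set_option autoImplicit false

open MeasureTheory Set Pointwise

namespace Pool.Agent.H748R2.KB

open Pool.Agent.H404R2.TH (CB V)

namespace COVx

lemma measurable_co {n : ℕ} {K : Set (Fin n → ℝ)} (hK : IsCompact K) :
    Measurable fun z => volume (co K z) := by
  have hS : MeasurableSet {p : (Fin n → ℝ) × (Fin n → ℝ) | p.2 ∈ K ∧ p.2 + p.1 ∈ K} :=
    (hK.measurableSet.preimage measurable_snd).inter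
      (hK.measurableSet.preimage (measurable_snd.add measurable_fst))
  exact measurable_measure_prodMk_left hS

/-- layer cake -/
lemma cake {α : Type} [MeasurableSpace α] (μ : Measure α) (ψ : α → ℝ) (hψ : Measurable ψ)
    (h0 : ∀ z, 0 ≤ ψ z) (h1 : ∀ z, ψ z ≤ 1) (D : Set α) (hD : μ D ≠ ⊤)
    (hψD : ∀ z, 0 < ψ z → z ∈ D) (p : ℕ) (hp : 0 < p) :
    ∫ t in Ioo (0 : ℝ) 1, p * t ^ (p - 1) * μ.real {z | 0 < t ∧ t ≤ ψ z} =
      (∫⁻ z, ENNReal.ofReal (ψ z ^ p) ∂μ).toReal := by
  have hsub : ∀ t : ℝ, {z | 0 < t ∧ t ≤ ψ z} ⊆ D := fun t z hz => hψD z (hz.1.trans_le hz.2)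
  have hfin : ∀ t : ℝ, μ {z | 0 < t ∧ t ≤ ψ z} ≠ ⊤ := fun t => measure_ne_top_of_subset (hsub t) hD
  have hanti : AntitoneOn (fun t : ℝ => μ.real {z | 0 < t ∧ t ≤ ψ z}) (Ioo 0 1) := by
    intro s hs t ht hst
    refine measureReal_mono ?_ (hfin s)
    intro z hz
    exact ⟨hs.1, hst.trans hz.2⟩
  have hmeas : AEMeasurable (fun t : ℝ => μ.real {z | 0 < t ∧ t ≤ ψ z})
      (volume.restrict (Ioo (0 : ℝ) 1)) :=
    aemeasurable_restrict_of_antitoneOn measurableSet_Ioo hanti
  rw [integral_eq_lintegral_of_nonneg_ae]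
  · congr 1
    have h := lintegral_rpow_eq_lintegral_meas_le_mul μ (f := ψ)
      (Filter.Eventually.of_forall h0) hψ.aemeasurable (p := (p : ℝ)) (by exact_mod_cast hp)
    simp only [Real.rpow_natCast] at h
    rw [h, ← lintegral_const_mul' _ _ ENNReal.ofReal_ne_top,
      ← lintegral_indicator measurableSet_Ioo, ← lintegral_indicator measurableSet_Ioi]
    have hne : ∀ᵐ t : ℝ, t ≠ 1 := by
      rw [ae_iff]; simp
    refine lintegral_congr_ae ?_
    filter_upwards [hne] with t ht
    by_cases h2 : t ∈ Ioo (0 : ℝ) 1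
    · have h3 : t ∈ Ioi (0 : ℝ) := h2.1
      rw [indicator_of_mem h2, indicator_of_mem h3]
      have h4 : t ^ ((p : ℝ) - 1) = t ^ (p - 1) := by
        have h5 : (p : ℝ) - 1 = ((p - 1 : ℕ) : ℝ) := by
          rw [Nat.cast_sub hp, Nat.cast_one]
        rw [h5, Real.rpow_natCast]
      have h6 : {a : α | t ≤ ψ a} = {z | 0 < t ∧ t ≤ ψ z} := by
        ext z
        exact ⟨fun hz => ⟨h2.1, hz⟩, fun hz => hz.2⟩
      rw [h4, h6]
      have h7 : (0 : ℝ) ≤ t := h2.1.le
      rw [ENNReal.ofReal_mul (by positivity), ENNReal.ofReal_mul (by positivity),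
        ofReal_measureReal (hfin t)]
      ring
    · rw [indicator_of_notMem h2]
      by_cases h3 : t ∈ Ioi (0 : ℝ)
      · rw [indicator_of_mem h3]
        have h4 : 1 < t := by
          by_contra h5
          push Not at h5
          exact h2 ⟨h3, lt_of_le_of_ne h5 ht⟩
        have h6 : {a : α | t ≤ ψ a} = ∅ := by
          ext z
          simp only [mem_setOf_eq, mem_empty_iff_false, iff_false, not_le]
          exact (h1 z).trans_lt h4
        rw [h6, measure_empty, zero_mul, mul_zero]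
      · rw [indicator_of_notMem h3]
  · refine (ae_restrict_iff' measurableSet_Ioo).2 (Filter.Eventually.of_forall fun t ht => ?_)
    have h7 : (0 : ℝ) ≤ t := ht.1.le
    simp only [Pi.zero_apply]
    positivity
  · refine AEMeasurable.aestronglyMeasurable (AEMeasurable.mul ?_ hmeas)
    exact (by fun_prop : Measurable fun t : ℝ => (p : ℝ) * t ^ (p - 1)).aemeasurable

end COVx

open COVx in
/-- lower bound for the second moment of the covariogram -/
theorem t_COV (_hBM : S_BM) (hRAD : S_RAD) (hCHEB : S_CHEB) (hINT : S_INT2) : S_COV := by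
  intro n hn K hK
  have hKc := hK.isCompact
  have hKfin : volume K ≠ ⊤ := hKc.measure_lt_top.ne
  have hKpos : 0 < volume K := lt_of_lt_of_le
    (isOpen_interior.measure_pos volume hK.interior_nonempty) (measure_mono interior_subset)
  set v : ℝ := V K with hv
  have hv0 : 0 < v := ENNReal.toReal_pos hKpos.ne' hKfin
  have hvE : ENNReal.ofReal v = volume K := ENNReal.ofReal_toReal hKfin
  have hcosub : ∀ z, co K z ⊆ K := fun z x hx => hx.1
  have hcofin : ∀ z, volume (co K z) ≠ ⊤ := fun z => measure_ne_top_of_subset (hcosub z) hKfin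
  set G : (Fin n → ℝ) → ℝ := fun z => V (co K z) with hG
  have hG0 : ∀ z, 0 ≤ G z := fun z => ENNReal.toReal_nonneg
  have hGv : ∀ z, G z ≤ v := fun z => ENNReal.toReal_mono hKfin (measure_mono (hcosub z))
  have hGm : Measurable G := (measurable_co hKc).ennreal_toReal
  -- the difference body
  set D : Set (Fin n → ℝ) := K - K with hD
  have hDc : IsCompact D := by rw [hD, sub_eq_add_neg]; exact hKc.add hKc.neg
  have hDfin : volume D ≠ ⊤ := hDc.measure_lt_top.ne
  have hGD : ∀ z, 0 < G z → z ∈ D := by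
    intro z hz
    have h1 : (co K z).Nonempty := by
      by_contra h2
      rw [not_nonempty_iff_eq_empty] at h2
      have h3 : G z = 0 := by
        simp only [hG, V, h2, measure_empty, ENNReal.toReal_zero]
      linarith
    obtain ⟨x, hx1, hx2⟩ := h1
    exact mem_sub.2 ⟨x + z, hx2, x, hx1, by simp⟩
  -- the root
  have hn0 : n ≠ 0 := hn.ne'
  set ψ : (Fin n → ℝ) → ℝ := fun z => (G z / v) ^ ((n : ℝ)⁻¹) with hψ
  have hq0 : ∀ z, 0 ≤ G z / v := fun z => div_nonneg (hG0 z) hv0.le
  have hψ0 : ∀ z, 0 ≤ ψ z := fun z => Real.rpow_nonneg (hq0 z) _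
  have hψ1 : ∀ z, ψ z ≤ 1 := fun z =>
    Real.rpow_le_one (hq0 z) ((div_le_one hv0).2 (hGv z)) (by positivity)
  have hψn : ∀ z, ψ z ^ n = G z / v := fun z => Real.rpow_inv_natCast_pow (hq0 z) hn0
  have hψm : Measurable ψ := (hGm.div_const v).pow_const _
  have hψD : ∀ z, 0 < ψ z → z ∈ D := by
    intro z hz
    apply hGD
    have h1 : 0 < ψ z ^ n := pow_pos hz n
    rw [hψn] at h1
    rcases (hG0 z).lt_or_eq with h2 | h2
    · exact h2
    · rw [← h2, zero_div] at h1
      exact absurd h1 (lt_irrefl _)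
  have hlev : ∀ t : ℝ, 0 < t → ∀ z, (t ≤ ψ z ↔ t ^ n * v ≤ G z) := by
    intro t ht z
    rw [← pow_le_pow_iff_left₀ ht.le (hψ0 z) hn0, hψn, le_div_iff₀ hv0]
  -- the level function
  set lam : ℝ → ℝ := fun t => volume.real {z | 0 < t ∧ t ≤ ψ z} with hlam
  have hsub : ∀ t : ℝ, {z | 0 < t ∧ t ≤ ψ z} ⊆ D := fun t z hz => hψD z (hz.1.trans_le hz.2)
  have hfin : ∀ t : ℝ, volume {z | 0 < t ∧ t ≤ ψ z} ≠ ⊤ := fun t =>
    measure_ne_top_of_subset (hsub t) hDfin
  have hch := hCHEB n hn lam (fun s => measureReal_nonneg)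
    ⟨volume.real D, fun s => measureReal_mono (hsub s) hDfin⟩
    (by
      intro s hs t ht hst
      refine measureReal_mono ?_ (hfin s)
      intro z hz
      exact ⟨hs.1, hst.trans hz.2⟩)
    (by
      intro s s' hs hss hs'
      have hs1 : 0 < 1 - s := by linarith
      have hs1' : 0 < 1 - s' := by linarith
      set t : ℝ := (1 - s') / (1 - s) with ht
      have ht0 : 0 < t := by positivity
      have ht1 : t ≤ 1 := by
        rw [ht, div_le_one hs1]; linarith
      have hts : 1 - t * (1 - s) = s' := by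
        rw [ht]; field_simp; ring
      have himg : t • {z | 0 < s ∧ s ≤ ψ z} ⊆ {z | 0 < s' ∧ s' ≤ ψ z} := by
        rintro _ ⟨z, hz, rfl⟩
        have h1 := (hlev s hs z).1 hz.2
        have h2 := hRAD n K hK z t s ht0.le ht1 hs (by linarith) h1
        rw [hts] at h2
        exact ⟨by linarith, (hlev s' (by linarith) _).2 h2⟩
      have hvol : t ^ n * lam s ≤ lam s' := by
        have h1 : volume.real (t • {z | 0 < s ∧ s ≤ ψ z}) = t ^ n * lam s := by
          rw [measureReal_def, Measure.addHaar_smul, ENNReal.toReal_mul,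
            ENNReal.toReal_ofReal (abs_nonneg _), Module.finrank_fin_fun,
            abs_of_nonneg (by positivity)]
          rfl
        rw [← h1]
        exact measureReal_mono himg (hfin s')
      calc (1 - s') ^ n * lam s = (1 - s) ^ n * (t ^ n * lam s) := by
            rw [ht, div_pow]; field_simp
        _ ≤ (1 - s) ^ n * lam s' := mul_le_mul_of_nonneg_left hvol (by positivity))
  have hc1 := cake volume ψ hψm hψ0 hψ1 D hDfin hψD n hn
  have hc2 := cake volume ψ hψm hψ0 hψ1 D hDfin hψD (2 * n) (by omega)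
  -- first moment
  have hm1 : (∫⁻ z, ENNReal.ofReal (ψ z ^ n)).toReal = v := by
    have h1 : ∀ z, ENNReal.ofReal (ψ z ^ n) = volume (co K z) * (volume K)⁻¹ := by
      intro z
      rw [hψn, ENNReal.ofReal_div_of_pos hv0, hvE, div_eq_mul_inv]
      congr 1
      exact ENNReal.ofReal_toReal (hcofin z)
    simp only [h1]
    rw [lintegral_mul_const' _ _ (ENNReal.inv_ne_top.2 hKpos.ne'), hINT n K hKc, pow_two,
      mul_assoc, ENNReal.mul_inv_cancel hKpos.ne' hKfin, mul_one]
    rfl
  -- second moment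
  have hm2 : (∫⁻ z, ENNReal.ofReal (ψ z ^ (2 * n))).toReal = (∫ z, G z ^ 2) / v ^ 2 := by
    have h1 : ∀ z, ψ z ^ (2 * n) = G z ^ 2 / v ^ 2 := by
      intro z
      rw [mul_comm, pow_mul, hψn, div_pow]
    simp only [h1]
    rw [← integral_eq_lintegral_of_nonneg_ae, integral_div]
    · exact Filter.Eventually.of_forall fun z => by
        simp only [Pi.zero_apply]; positivity
    · exact ((hGm.pow_const 2).div_const _).aestronglyMeasurable
  have h1 : ∫ s in Ioo (0 : ℝ) 1, (n : ℝ) * s ^ (n - 1) * lam s = v := by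
    rw [← hm1, ← hc1]
  have h2 : ∫ s in Ioo (0 : ℝ) 1, 2 * (n : ℝ) * s ^ (2 * n - 1) * lam s =
      (∫ z, G z ^ 2) / v ^ 2 := by
    rw [← hm2, ← hc2]
    push_cast
    rfl
  rw [h1, h2] at hch
  have h3 : 0 < v ^ 2 := by positivity
  rw [← mul_div_assoc, le_div_iff₀ h3] at hch
  calc ((2 * n).factorial : ℝ) ^ 2 * v ^ 3 = ((2 * n).factorial : ℝ) ^ 2 * v * v ^ 2 := by ring
    _ ≤ _ := hch

end Pool.Agent.H748R2.KB
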