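import Pool.Agent.H748R2.KB.Spec

set_option autoImplicit false

/-! Inner and outer parallel bodies of a compact convex set. -/

open MeasureTheory Set Pointwise Filter Topology

namespace Pool.Agent.H748R2.KB

open Pool.Agent.H404R2.TH (CB V)

theorem t_INN (hP : S_POLYT) (hA : S_APP) : S_INN := by
  intro n K Y hK hKc hKne hY hYc h0
  set δ : ℕ → ℝ := fun N => 1 / ((N : ℝ) + 1) with hδ
  have hδ0 : ∀ N, 0 < δ N := fun N => by positivity
  have hδt : Tendsto δ atTop (𝓝 0) := tendsto_one_div_add_atTop_nhds_zero_nat
  set C : ℕ → Set (Fin n → ℝ) := fun N => Metric.cthickening (δ N) K with hC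
  have hCc : ∀ N, IsCompact (C N) := fun N => hK.cthickening
  have hanti : Antitone C := by
    intro N M hNM
    apply Metric.cthickening_mono
    exact one_div_le_one_div_of_le (by positivity) (by
      have : (N : ℝ) ≤ M := by exact_mod_cast hNM
      linarith)
  have hmdc : ∀ A : Set (Fin n → ℝ), IsClosed A → IsClosed (md A Y) := by
    intro A hA'
    have : md A Y = ⋂ y ∈ Y, (fun x => x + y) ⁻¹' A := by
      ext x
      simp [md]
    rw [this]
    exact isClosed_biInter fun y _ => hA'.preimage (by fun_prop)
  have hmdsub : ∀ A : Set (Fin n → ℝ), md A Y ⊆ A := by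
    intro A x hx
    have := hx 0 h0
    rwa [add_zero] at this
  have hmdmono : ∀ A B : Set (Fin n → ℝ), A ⊆ B → md A Y ⊆ md B Y :=
    fun A B h x hx y hy => h (hx y hy)
  have hKi : ⋂ N, C N = K := by
    have h1 : closure K = ⋂ δ' > (0 : ℝ), Metric.cthickening δ' K :=
      Metric.closure_eq_iInter_cthickening K
    rw [hK.isClosed.closure_eq] at h1
    apply Subset.antisymm
    · conv_rhs => rw [h1]
      intro x hx
      rw [mem_iInter₂]
      intro δ' hδ'
      obtain ⟨N, hN⟩ := (hδt.eventually (gt_mem_nhds hδ')).exists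
      exact Metric.cthickening_mono hN.le K (mem_iInter.1 hx N)
    · exact subset_iInter fun N => Metric.self_subset_cthickening K
  have hmdi : ⋂ N, md (C N) Y = md K Y := by
    ext x
    rw [mem_iInter]
    constructor
    · intro h y hy
      rw [← hKi, mem_iInter]
      exact fun N => h N y hy
    · intro h N
      exact hmdmono _ _ (Metric.self_subset_cthickening K) h
  have hlim1 : Tendsto (fun N => volume (md (C N) Y)) atTop (𝓝 (volume (md K Y))) := by
    rw [← hmdi]
    apply tendsto_measure_iInter_atTop
    · intro N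
      exact (hmdc _ (hCc N).isClosed).measurableSet.nullMeasurableSet
    · intro N M hNM
      exact hmdmono _ _ (hanti hNM)
    · exact ⟨0, ((measure_mono (hmdsub _)).trans_lt (hCc 0).measure_lt_top).ne⟩
  have hlim1' : Tendsto (fun N => V (md (C N) Y)) atTop (𝓝 (V (md K Y))) := by
    unfold V
    exact (ENNReal.tendsto_toReal
      ((measure_mono (hmdsub _)).trans_lt hK.measure_lt_top).ne).comp hlim1
  have hKY : IsCompact (K + Y) := hK.add hY
  have hsum : ∀ N, C N + Y = Metric.cthickening (δ N) (K + Y) := by
    intro N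
    show Metric.cthickening (δ N) K + Y = _
    rw [← hK.add_closedBall_zero (hδ0 N).le, ← hKY.add_closedBall_zero (hδ0 N).le]
    rw [add_right_comm]
  have hlim2 : Tendsto (fun N => V (C N + Y)) atTop (𝓝 (V (K + Y))) := by
    have h1 : Tendsto (fun N => volume (Metric.cthickening (δ N) (K + Y))) atTop
        (𝓝 (volume (K + Y))) := (tendsto_measure_cthickening_of_isCompact hKY).comp hδt
    unfold V
    simp_rw [hsum]
    exact (ENNReal.tendsto_toReal hKY.measure_lt_top.ne).comp h1
  have hle : ∀ N, 2 * V K ≤ V (md (C N) Y) + V (C N + Y) := by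
    intro N
    obtain ⟨m, l, h, h1, h2⟩ := hA n K hK hKc hKne (δ N) (hδ0 N)
    set P : Set (Fin n → ℝ) := {x | ∀ i, l i x ≤ h i} with hPdef
    have hPcl : IsClosed P := by
      have : P = ⋂ i, {x | l i x ≤ h i} := by
        ext x
        simp [hPdef]
      rw [this]
      exact isClosed_iInter fun i => isClosed_le (l i).continuous continuous_const
    have hPc : IsCompact P := (hCc N).of_isClosed_subset hPcl h2
    have h3 := hP n m l h Y hPc hY hYc h0
    have hV : ∀ A B : Set (Fin n → ℝ), A ⊆ B → volume B < ⊤ → V A ≤ V B := by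
      intro A B hAB hB
      exact ENNReal.toReal_mono hB.ne (measure_mono hAB)
    have e1 : V K ≤ V P := hV _ _ h1 hPc.measure_lt_top
    have e2 : V (md P Y) ≤ V (md (C N) Y) := hV _ _ (hmdmono _ _ h2)
      ((measure_mono (hmdsub _)).trans_lt (hCc N).measure_lt_top)
    have e3 : V (P + Y) ≤ V (C N + Y) := hV _ _ (add_subset_add_right h2)
      ((hCc N).add hY).measure_lt_top
    linarith
  exact ge_of_tendsto' (hlim1'.add hlim2) hle

end Pool.Agent.H748R2.KB
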