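import Pool.Agent.H748R2.KB.Spec

set_option autoImplicit false

/-!
Task KBN: the largest symmetric part in all dimensions.
-/

open MeasureTheory Set Pointwise

namespace Pool.Agent.H748R2.KB

open Pool.Agent.H404R2.TH (CB V)

theorem t_KBN : S_USC → S_INT1 → S_L2 → S_COV → S_KBN := by
  intro hUSC hI1 hL2 hCOV n hn K hK
  obtain ⟨z, hz⟩ := hUSC n K hK.isCompact
  refine ⟨z, ?_⟩
  have hfin : volume K ≠ ⊤ := hK.isCompact.measure_lt_top.ne
  have hpos : 0 < V K := by
    have h1 : 0 < volume (interior K) := isOpen_interior.measure_pos _ hK.interior_nonempty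
    have h2 : 0 < volume K := h1.trans_le (measure_mono interior_subset)
    exact ENNReal.toReal_pos h2.ne' hfin
  have hsy : ∀ w, volume (sy K w) ≤ volume K := fun w => measure_mono fun x hx => hx.1
  have hco : ∀ w, volume (co K w) ≤ volume K := fun w => measure_mono fun x hx => hx.1
  have hM0 : 0 ≤ V (sy K z) := ENNReal.toReal_nonneg
  have h1 : ∀ w, volume (sy K w) ^ 2 ≤ ENNReal.ofReal (V (sy K z)) * volume (sy K w) := by
    intro w
    have h2 : volume (sy K w) ≤ ENNReal.ofReal (V (sy K z)) := by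
      rw [← ENNReal.ofReal_toReal ((hsy w).trans_lt hfin.lt_top).ne]
      exact ENNReal.ofReal_le_ofReal (hz w)
    rw [sq]
    exact mul_le_mul_left h2 _
  have h3 : ∫⁻ w, volume (co K w) ^ 2 ≤ ENNReal.ofReal (V (sy K z)) * volume K ^ 2 := by
    rw [← hL2 n K hK.isCompact, ← hI1 n K hK.isCompact,
      ← lintegral_const_mul' _ _ ENNReal.ofReal_ne_top]
    exact lintegral_mono h1
  have h4 : ∫ w, V (co K w) ^ 2 ≤ V (sy K z) * V K ^ 2 := by
    have h5 : ENNReal.ofReal (V (sy K z)) * volume K ^ 2 =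
        ENNReal.ofReal (V (sy K z) * V K ^ 2) := by
      have e : ENNReal.ofReal (V K) = volume K := ENNReal.ofReal_toReal hfin
      rw [ENNReal.ofReal_mul hM0, ENNReal.ofReal_pow hpos.le, e]
    by_cases hint : Integrable (fun w => V (co K w) ^ 2)
    · have h6 := ofReal_integral_eq_lintegral_ofReal hint
        (Filter.Eventually.of_forall fun w => sq_nonneg (V (co K w)))
      have h7 : ∫⁻ w, ENNReal.ofReal (V (co K w) ^ 2) = ∫⁻ w, volume (co K w) ^ 2 := by
        apply lintegral_congr
        intro w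
        have e : ENNReal.ofReal (V (co K w)) = volume (co K w) :=
          ENNReal.ofReal_toReal ((hco w).trans_lt hfin.lt_top).ne
        have e0 : 0 ≤ V (co K w) := ENNReal.toReal_nonneg
        rw [ENNReal.ofReal_pow e0, e]
      rw [h7] at h6
      rw [← h6, h5] at h3
      exact (ENNReal.ofReal_le_ofReal_iff (by positivity)).1 h3
    · rw [integral_undef hint]
      positivity
  have h8 := hCOV n hn K hK
  have h9 : (0 : ℝ) ≤ (n.factorial : ℝ) * (3 * n).factorial := by positivity
  have h10 : ((2 * n).factorial : ℝ) ^ 2 * V K ^ 3 ≤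
      ((n.factorial : ℝ) * (3 * n).factorial) * (V (sy K z) * V K ^ 2) :=
    h8.trans (mul_le_mul_of_nonneg_left h4 h9)
  have h11 : (0 : ℝ) < V K ^ 2 := by positivity
  have h12 : (((2 * n).factorial : ℝ) ^ 2 * V K) * V K ^ 2 ≤
      (((n.factorial : ℝ) * (3 * n).factorial) * V (sy K z)) * V K ^ 2 := by
    calc _ = ((2 * n).factorial : ℝ) ^ 2 * V K ^ 3 := by ring
      _ ≤ _ := h10
      _ = _ := by ring
  exact le_of_mul_le_mul_right h12 h11

end Pool.Agent.H748R2.KB
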