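import Pool.Agent.H748R2.KB.Spec

set_option autoImplicit false

/-!
Tonelli: the second moments of the convolution square and of the covariogram (helper955).
-/

open MeasureTheory Set Pointwise
open scoped ENNReal

namespace Pool.Agent.H748R2.KB

/-- indicator function -/
private noncomputable def fi {n : ℕ} (K : Set (Fin n → ℝ)) : (Fin n → ℝ) → ℝ≥0∞ :=
  K.indicator 1

private theorem fi_meas {n : ℕ} {K : Set (Fin n → ℝ)} (hK : IsCompact K) : Measurable (fi K) :=
  measurable_one.indicator hK.measurableSet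

private theorem fi_int {n : ℕ} {K : Set (Fin n → ℝ)} (hK : IsCompact K) :
    ∫⁻ x, fi K x = volume K := by
  unfold fi
  exact lintegral_indicator_one hK.measurableSet

private theorem sy_eq {n : ℕ} {K : Set (Fin n → ℝ)} (hK : IsCompact K) (z : Fin n → ℝ) :
    volume (sy K z) = ∫⁻ x, fi K x * fi K (z - x) := by
  have hm : MeasurableSet (sy K z) := by
    have h1 : sy K z = K ∩ (fun x => z - x) ⁻¹' K := rfl
    rw [h1]
    exact hK.measurableSet.inter ((measurable_const.sub measurable_id) hK.measurableSet)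
  rw [← lintegral_indicator_one hm]
  refine lintegral_congr fun x => ?_
  unfold fi
  by_cases h1 : x ∈ K
  · by_cases h2 : z - x ∈ K
    · have h3 : x ∈ sy K z := ⟨h1, h2⟩
      simp [h1, h2, h3]
    · have h3 : x ∉ sy K z := fun h => h2 h.2
      simp [h2, h3]
  · have h3 : x ∉ sy K z := fun h => h1 h.1
    simp [h1, h3]

private theorem co_eq {n : ℕ} {K : Set (Fin n → ℝ)} (hK : IsCompact K) (z : Fin n → ℝ) :
    volume (co K z) = ∫⁻ x, fi K x * fi K (x + z) := by
  have hm : MeasurableSet (co K z) := by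
    have h1 : co K z = K ∩ (fun x => x + z) ⁻¹' K := rfl
    rw [h1]
    exact hK.measurableSet.inter ((measurable_id.add measurable_const) hK.measurableSet)
  rw [← lintegral_indicator_one hm]
  refine lintegral_congr fun x => ?_
  unfold fi
  by_cases h1 : x ∈ K
  · by_cases h2 : x + z ∈ K
    · have h3 : x ∈ co K z := ⟨h1, h2⟩
      simp [h1, h2, h3]
    · have h3 : x ∉ co K z := fun h => h2 h.2
      simp [h2, h3]
  · have h3 : x ∉ co K z := fun h => h1 h.1
    simp [h1, h3]

theorem t_INT1 : S_INT1 := by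
  intro n K hK
  have hf := fi_meas hK
  simp_rw [sy_eq hK]
  rw [lintegral_lintegral_swap (by
    have : Measurable (fun p : (Fin n → ℝ) × (Fin n → ℝ) => fi K p.2 * fi K (p.1 - p.2)) := by
      fun_prop
    exact this.aemeasurable)]
  have h1 : ∀ x, ∫⁻ z, fi K x * fi K (z - x) = fi K x * volume K := by
    intro x
    rw [lintegral_const_mul _ (by fun_prop), lintegral_sub_right_eq_self, fi_int hK]
  simp_rw [h1]
  rw [lintegral_mul_const _ hf, fi_int hK, sq]

theorem t_INT2 : S_INT2 := by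
  intro n K hK
  have hf := fi_meas hK
  simp_rw [co_eq hK]
  rw [lintegral_lintegral_swap (by
    have : Measurable (fun p : (Fin n → ℝ) × (Fin n → ℝ) => fi K p.2 * fi K (p.2 + p.1)) := by
      fun_prop
    exact this.aemeasurable)]
  have h1 : ∀ x, ∫⁻ z, fi K x * fi K (x + z) = fi K x * volume K := by
    intro x
    rw [lintegral_const_mul _ (by fun_prop), lintegral_add_left_eq_self, fi_int hK]
  simp_rw [h1]
  rw [lintegral_mul_const _ hf, fi_int hK, sq]

private theorem t1 {n : ℕ} {f : (Fin n → ℝ) → ℝ≥0∞} (hf : Measurable f) :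
    ∫⁻ z, (∫⁻ x, f x * f (z - x)) ^ 2 =
      ∫⁻ x, ∫⁻ w, ∫⁻ y, f x * f w * (f y * f (w + x - y)) := by
  have hA : Measurable fun z : Fin n → ℝ => ∫⁻ x, f x * f (z - x) := by
    have : Measurable (fun p : (Fin n → ℝ) × (Fin n → ℝ) => f p.2 * f (p.1 - p.2)) := by
      fun_prop
    exact this.lintegral_prod_right'
  have h1 : ∀ z : Fin n → ℝ, (∫⁻ x, f x * f (z - x)) ^ 2 =
      ∫⁻ x, f x * f (z - x) * ∫⁻ y, f y * f (z - y) := by
    intro z
    rw [lintegral_mul_const _ (by fun_prop), sq]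
  simp_rw [h1]
  rw [lintegral_lintegral_swap (by
    have : Measurable (fun p : (Fin n → ℝ) × (Fin n → ℝ) =>
        f p.2 * f (p.1 - p.2) * ∫⁻ y, f y * f (p.1 - y)) := by
      have h2 : Measurable (fun p : (Fin n → ℝ) × (Fin n → ℝ) => ∫⁻ y, f y * f (p.1 - y)) :=
        hA.comp measurable_fst
      have h3 : Measurable (fun p : (Fin n → ℝ) × (Fin n → ℝ) => f p.2 * f (p.1 - p.2)) := by
        fun_prop
      exact h3.mul h2
    exact this.aemeasurable)]
  refine lintegral_congr fun x => ?_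
  rw [← lintegral_add_right_eq_self (fun z => f x * f (z - x) * ∫⁻ y, f y * f (z - y)) x]
  refine lintegral_congr fun w => ?_
  rw [add_sub_cancel_right, lintegral_const_mul _ (by fun_prop)]

private theorem t2 {n : ℕ} {f : (Fin n → ℝ) → ℝ≥0∞} (hf : Measurable f) :
    ∫⁻ z, (∫⁻ x, f x * f (x + z)) ^ 2 =
      ∫⁻ x, ∫⁻ w, ∫⁻ y, f x * f w * (f y * f (y + (w - x))) := by
  have hA : Measurable fun z : Fin n → ℝ => ∫⁻ x, f x * f (x + z) := by
    have : Measurable (fun p : (Fin n → ℝ) × (Fin n → ℝ) => f p.2 * f (p.2 + p.1)) := by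
      fun_prop
    exact this.lintegral_prod_right'
  have h1 : ∀ z : Fin n → ℝ, (∫⁻ x, f x * f (x + z)) ^ 2 =
      ∫⁻ x, f x * f (x + z) * ∫⁻ y, f y * f (y + z) := by
    intro z
    rw [lintegral_mul_const _ (by fun_prop), sq]
  simp_rw [h1]
  rw [lintegral_lintegral_swap (by
    have : Measurable (fun p : (Fin n → ℝ) × (Fin n → ℝ) =>
        f p.2 * f (p.2 + p.1) * ∫⁻ y, f y * f (y + p.1)) := by
      have h2 : Measurable (fun p : (Fin n → ℝ) × (Fin n → ℝ) => ∫⁻ y, f y * f (y + p.1)) :=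
        hA.comp measurable_fst
      have h3 : Measurable (fun p : (Fin n → ℝ) × (Fin n → ℝ) => f p.2 * f (p.2 + p.1)) := by
        fun_prop
      exact h3.mul h2
    exact this.aemeasurable)]
  refine lintegral_congr fun x => ?_
  rw [← lintegral_sub_right_eq_self (fun z => f x * f (x + z) * ∫⁻ y, f y * f (y + z)) x]
  refine lintegral_congr fun w => ?_
  rw [add_sub_cancel, lintegral_const_mul _ (by fun_prop)]

theorem t_L2 : S_L2 := by
  intro n K hK
  have hf := fi_meas hK
  simp_rw [sy_eq hK, co_eq hK]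
  rw [t1 hf, t2 hf]
  have s1 : ∫⁻ x, ∫⁻ w, ∫⁻ y, fi K x * fi K w * (fi K y * fi K (w + x - y)) =
      ∫⁻ x, ∫⁻ y, ∫⁻ w, fi K x * fi K w * (fi K y * fi K (w + x - y)) := by
    refine lintegral_congr fun x => ?_
    rw [lintegral_lintegral_swap (by
      have : Measurable (fun p : (Fin n → ℝ) × (Fin n → ℝ) =>
          fi K x * fi K p.1 * (fi K p.2 * fi K (p.1 + x - p.2))) := by fun_prop
      exact this.aemeasurable)]
  have s2 : ∫⁻ x, ∫⁻ y, ∫⁻ w, fi K x * fi K w * (fi K y * fi K (w + x - y)) =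
      ∫⁻ y, ∫⁻ x, ∫⁻ w, fi K x * fi K w * (fi K y * fi K (w + x - y)) := by
    rw [lintegral_lintegral_swap (by
      have : Measurable (fun p : (Fin n → ℝ) × (Fin n → ℝ) =>
          ∫⁻ w, fi K p.1 * fi K w * (fi K p.2 * fi K (w + p.1 - p.2))) := by
        have h4 : Measurable (fun p : ((Fin n → ℝ) × (Fin n → ℝ)) × (Fin n → ℝ) =>
          fi K p.1.1 * fi K p.2 * (fi K p.1.2 * fi K (p.2 + p.1.1 - p.1.2))) := by fun_prop
        exact h4.lintegral_prod_right'
      exact this.aemeasurable)]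
  have s3 : ∫⁻ y, ∫⁻ x, ∫⁻ w, fi K x * fi K w * (fi K y * fi K (w + x - y)) =
      ∫⁻ y, ∫⁻ w, ∫⁻ x, fi K x * fi K w * (fi K y * fi K (w + x - y)) := by
    refine lintegral_congr fun y => ?_
    rw [lintegral_lintegral_swap (by
      have : Measurable (fun p : (Fin n → ℝ) × (Fin n → ℝ) =>
          fi K p.1 * fi K p.2 * (fi K y * fi K (p.2 + p.1 - y))) := by fun_prop
      exact this.aemeasurable)]
  rw [s1, s2, s3]
  refine lintegral_congr fun y => lintegral_congr fun w => lintegral_congr fun x => ?_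
  have h5 : w + x - y = x + (w - y) := by
    rw [add_comm w x, add_sub_assoc]
  rw [h5]
  ring

end Pool.Agent.H748R2.KB
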