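import Pool.Agent.H748R2.KB.Spec

/-!
The volume lost by the inner parallel body of a polytope is at most the volume gained by the outer
parallel body: reflect the piece belonging to the facet `i` in its facet, in the direction `e_i`.
-/

set_option autoImplicit false

open MeasureTheory Set Pointwise

namespace Pool.Agent.H748R2.KB

open Pool.Agent.H404R2.TH (CB V)

private theorem POLYT_null {n : ℕ} (l : (Fin n → ℝ) →L[ℝ] ℝ) (c : ℝ) (v : Fin n → ℝ)
    (hv : l v ≠ 0) : volume {x | l x = c} = 0 := by
  by_cases hne : ∃ x0, l x0 = c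
  · obtain ⟨x0, hx0⟩ := hne
    have h1 : {x | l x = c} = (fun x => x + (-x0)) ⁻¹'
        ((LinearMap.ker (l : (Fin n → ℝ) →ₗ[ℝ] ℝ) : Submodule ℝ (Fin n → ℝ)) :
          Set (Fin n → ℝ)) := by
      ext x
      simp only [mem_ofPred_eq, mem_preimage, SetLike.mem_coe, LinearMap.mem_ker, map_add, map_neg,
        ContinuousLinearMap.coe_coe, hx0]
      constructor
      · intro h
        linarith
      · intro h
        linarith
    rw [h1, measure_preimage_add_right]
    refine Measure.addHaar_submodule _ _ ?_
    intro htop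
    have h2 : v ∈ LinearMap.ker (l : (Fin n → ℝ) →ₗ[ℝ] ℝ) := by
      rw [htop]
      trivial
    exact hv h2
  · push Not at hne
    have h1 : {x | l x = c} = ∅ := by
      ext x
      simp [hne x]
    rw [h1, measure_empty]

private theorem POLYT_vol {n : ℕ} (l : (Fin n → ℝ) →L[ℝ] ℝ) (e : Fin n → ℝ) (c : ℝ)
    (hη : 0 < l e) (S : Set (Fin n → ℝ)) :
    volume ((fun x => x + (2 * ((c - l x) / l e)) • e) ⁻¹' S) = volume S := by
  let A : (Fin n → ℝ) →ₗ[ℝ] (Fin n → ℝ) :=
    LinearMap.id - (2 / l e) • ((l : (Fin n → ℝ) →ₗ[ℝ] ℝ).smulRight e)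
  have hAx : ∀ x, A x = x - (2 / l e) • (l x • e) := fun x => rfl
  have hA : A ∘ₗ A = LinearMap.id := by
    refine LinearMap.ext fun x => ?_
    rw [LinearMap.comp_apply, hAx, hAx]
    have h1 : l (x - (2 / l e) • (l x • e)) = - l x := by
      rw [map_sub, map_smul, map_smul, smul_eq_mul, smul_eq_mul]
      field_simp
      ring
    rw [h1]
    simp
  have hdet2 : LinearMap.det A * LinearMap.det A = 1 := by
    rw [← LinearMap.det_comp, hA, LinearMap.det_id]
  have hdet : |LinearMap.det A| = 1 := by
    have h2 : |LinearMap.det A| * |LinearMap.det A| = 1 := by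
      rw [← abs_mul, hdet2, abs_one]
    nlinarith [abs_nonneg (LinearMap.det A)]
  have hdet0 : LinearMap.det A ≠ 0 := by
    intro h
    rw [h] at hdet2
    norm_num at hdet2
  have h1 : (fun x => x + (2 * ((c - l x) / l e)) • e) ⁻¹' S =
      A ⁻¹' ((fun x => x + (2 * c / l e) • e) ⁻¹' S) := by
    ext x
    simp only [mem_preimage]
    have h3 : x + (2 * ((c - l x) / l e)) • e = A x + (2 * c / l e) • e := by
      rw [hAx, smul_smul, sub_add_eq_add_sub, add_sub_assoc, ← sub_smul]
      congr 2
      field_simp
    rw [h3]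
  rw [h1, Measure.addHaar_preimage_linearMap _ hdet0, measure_preimage_add_right, abs_inv, hdet]
  simp

theorem t_POLYT : S_POLYT := by
  classical
  intro n m l h Y hPc hYc hYconv hY0
  set P : Set (Fin n → ℝ) := {x | ∀ i, l i x ≤ h i} with hPdef
  -- the maximisers
  have hex : ∀ i, ∃ e ∈ Y, ∀ y ∈ Y, l i y ≤ l i e := fun i =>
    hYc.exists_isMaxOn ⟨0, hY0⟩ (l i).continuous.continuousOn
  choose e heY hemax using hex
  have hη0 : ∀ i, 0 ≤ l i (e i) := fun i => by
    have := hemax i 0 hY0
    simpa using this
  have hmd : md P Y = {x | ∀ i, l i x + l i (e i) ≤ h i} := by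
    ext x
    constructor
    · intro hx i
      have := hx (e i) (heY i) i
      rwa [map_add] at this
    · intro hx y hy i
      rw [map_add]
      have h1 := hx i
      have h2 := hemax i y hy
      linarith
  have hPm : MeasurableSet P := hPc.isClosed.measurableSet
  have hmdm : MeasurableSet (md P Y) := by
    rw [hmd]
    have h1 : {x : Fin n → ℝ | ∀ i, l i x + l i (e i) ≤ h i} =
        ⋂ i, {x | l i x + l i (e i) ≤ h i} := by
      ext x
      simp
    rw [h1]
    exact MeasurableSet.iInter fun i => measurableSet_le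
      ((l i).continuous.measurable.add_const _) measurable_const
  have hmdP : md P Y ⊆ P := by
    intro x hx
    have := hx 0 hY0
    rwa [add_zero] at this
  have hPPY : P ⊆ P + Y := by
    intro x hx
    exact ⟨x, hx, 0, hY0, add_zero x⟩
  have hPYc : IsCompact (P + Y) := hPc.add hYc
  -- the pieces
  let R : Fin m → Set (Fin n → ℝ) := fun i => {x | 0 < h i - l i x ∧ h i - l i x < l i (e i) ∧
    (∀ j, (h i - l i x) * l j (e j) ≤ (h j - l j x) * l i (e i)) ∧
    ∀ j, j < i → 0 < l j (e j) → (h i - l i x) * l j (e j) < (h j - l j x) * l i (e i)}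
  let ρ : Fin m → (Fin n → ℝ) → (Fin n → ℝ) := fun i x =>
    x + (2 * ((h i - l i x) / l i (e i))) • e i
  have hρl : ∀ i x, 0 < l i (e i) → l i (ρ i x) = 2 * h i - l i x := by
    intro i x hi
    simp only [ρ, map_add, map_smul, smul_eq_mul]
    field_simp
    ring
  have hρρ : ∀ i x, 0 < l i (e i) → ρ i (ρ i x) = x := by
    intro i x hi
    have h1 : ρ i (ρ i x) = ρ i x + (2 * ((h i - l i (ρ i x)) / l i (e i))) • e i := rfl
    rw [h1, hρl i x hi]
    have h2 : h i - (2 * h i - l i x) = - (h i - l i x) := by ring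
    rw [h2]
    simp only [ρ]
    rw [add_assoc, ← add_smul]
    have h3 : 2 * ((h i - l i x) / l i (e i)) + 2 * (-(h i - l i x) / l i (e i)) = 0 := by
      field_simp
      ring
    rw [h3, zero_smul, add_zero]
  have hlm : ∀ i, Measurable (l i) := fun i => (l i).continuous.measurable
  have hRm : ∀ i, MeasurableSet (R i) := by
    intro i
    have hh : ∀ j, Measurable fun x => h j - l j x := fun j => measurable_const.sub (hlm j)
    refine (measurableSet_lt measurable_const (hh i)).inter
      ((measurableSet_lt (hh i) measurable_const).inter ?_)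
    refine MeasurableSet.inter ?_ ?_
    · have h1 : {x : Fin n → ℝ | ∀ j, (h i - l i x) * l j (e j) ≤ (h j - l j x) * l i (e i)} =
          ⋂ j, {x | (h i - l i x) * l j (e j) ≤ (h j - l j x) * l i (e i)} := by
        ext x
        simp
      change MeasurableSet
        {x : Fin n → ℝ | ∀ j, (h i - l i x) * l j (e j) ≤ (h j - l j x) * l i (e i)}
      rw [h1]
      exact MeasurableSet.iInter fun j => measurableSet_le ((hh i).mul_const _)
        ((hh j).mul_const _)
    · have h1 : {x : Fin n → ℝ | ∀ j, j < i → 0 < l j (e j) →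
          (h i - l i x) * l j (e j) < (h j - l j x) * l i (e i)} =
          ⋂ j, ⋂ (_ : j < i), ⋂ (_ : 0 < l j (e j)),
            {x | (h i - l i x) * l j (e j) < (h j - l j x) * l i (e i)} := by
        ext x
        simp
      change MeasurableSet {x : Fin n → ℝ | ∀ j, j < i → 0 < l j (e j) →
          (h i - l i x) * l j (e j) < (h j - l j x) * l i (e i)}
      rw [h1]
      exact MeasurableSet.iInter fun j => MeasurableSet.iInter fun _ => MeasurableSet.iInter
        fun _ => measurableSet_lt ((hh i).mul_const _) ((hh j).mul_const _)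
  have hρm : ∀ i, Measurable (ρ i) := by
    intro i
    have h1 : Continuous (ρ i) := by
      refine continuous_id.add ((continuous_const.mul
        ((continuous_const.sub (l i).continuous).div_const _)).smul continuous_const)
    exact h1.measurable
  let J : Finset (Fin m) := Finset.univ.filter fun i => 0 < l i (e i)
  have hJ : ∀ i, i ∈ J ↔ 0 < l i (e i) := fun i => by simp [J]
  let T : Fin m → Set (Fin n → ℝ) := fun i => ρ i ⁻¹' R i
  have hTm : ∀ i, MeasurableSet (T i) := fun i => hρm i (hRm i)
  have hTv : ∀ i ∈ J, volume (T i) = volume (R i) := fun i hi =>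
    POLYT_vol (l i) (e i) (h i) ((hJ i).1 hi) (R i)
  -- (a)
  have hcov : P \ md P Y ⊆ ⋃ i ∈ J, (R i ∪ {x | l i x = h i}) := by
    intro x hx
    obtain ⟨hxP, hxmd⟩ := hx
    rw [hmd] at hxmd
    simp only [mem_ofPred_eq, not_forall, not_le] at hxmd
    obtain ⟨j0, hj0⟩ := hxmd
    have hj0J : j0 ∈ J := by
      rw [hJ]
      have := hxP j0
      linarith
    let q : Fin m → ℝ := fun i => (h i - l i x) / l i (e i)
    obtain ⟨i1, hi1J, hi1⟩ := J.exists_min_image q ⟨j0, hj0J⟩
    let J' : Finset (Fin m) := J.filter fun i => q i = q i1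
    have hJ'ne : J'.Nonempty := ⟨i1, by simp [J', hi1J]⟩
    set i := J'.min' hJ'ne with hidef
    have hiJ' : i ∈ J' := J'.min'_mem hJ'ne
    have hiJ : i ∈ J := (Finset.mem_filter.1 hiJ').1
    have hqi : q i = q i1 := (Finset.mem_filter.1 hiJ').2
    have hi0 : 0 < l i (e i) := (hJ i).1 hiJ
    have hqle : ∀ j ∈ J, q i ≤ q j := fun j hj => by
      rw [hqi]
      exact hi1 j hj
    have hqlt : ∀ j ∈ J, j < i → q i < q j := by
      intro j hj hji
      refine lt_of_le_of_ne (hqle j hj) ?_
      intro heq
      have h1 : j ∈ J' := Finset.mem_filter.2 ⟨hj, by rw [← heq, hqi]⟩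
      exact absurd (J'.min'_le j h1) (not_le.2 hji)
    have hx0 : 0 ≤ h i - l i x := by
      have := hxP i
      linarith
    simp only [mem_iUnion]
    refine ⟨i, hiJ, ?_⟩
    rcases hx0.eq_or_lt with h0 | h0
    · right
      change l i x = h i
      linarith
    · left
      refine ⟨h0, ?_, ?_, ?_⟩
      · have h1 : q i < 1 := by
          refine (hqle j0 hj0J).trans_lt ?_
          have h2 := (hJ j0).1 hj0J
          simp only [q]
          rw [div_lt_one h2]
          linarith
        simp only [q] at h1
        rwa [div_lt_one hi0] at h1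
      · intro j
        rcases (hη0 j).eq_or_lt with hj | hj
        · rw [← hj, mul_zero]
          have h1 := hxP j
          exact mul_nonneg (by linarith) hi0.le
        · have h1 := hqle j ((hJ j).2 hj)
          simp only [q] at h1
          rwa [div_le_div_iff₀ hi0 hj] at h1
      · intro j hji hj
        have h1 := hqlt j ((hJ j).2 hj) hji
        simp only [q] at h1
        rwa [div_lt_div_iff₀ hi0 hj] at h1
  -- (c)
  have hc : ∀ i ∈ J, ∀ p ∈ T i, ∃ a ∈ P, ∃ s : ℝ, 0 < s ∧ s < 1 ∧ p = a + s • e i ∧
      l i p = h i + s * l i (e i) := by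
    intro i hi p hp
    have hi0 := (hJ i).1 hi
    obtain ⟨h1, h2, h3, h4⟩ := hp
    set x := ρ i p with hx
    have hpx : p = ρ i x := by rw [hx, hρρ i p hi0]
    clear_value x
    refine ⟨x + ((h i - l i x) / l i (e i)) • e i, ?_, (h i - l i x) / l i (e i), by positivity,
      (div_lt_one hi0).2 h2, ?_, ?_⟩
    · intro j
      rw [map_add, map_smul, smul_eq_mul]
      have h5 : (h i - l i x) / l i (e i) * l j (e i) ≤
          (h i - l i x) / l i (e i) * l j (e j) :=
        mul_le_mul_of_nonneg_left (hemax j (e i) (heY i)) (by positivity)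
      have h6 : (h i - l i x) / l i (e i) * l j (e j) ≤ h j - l j x := by
        rw [div_mul_eq_mul_div, div_le_iff₀ hi0]
        exact h3 j
      linarith
    · refine hpx.trans ?_
      change x + (2 * ((h i - l i x) / l i (e i))) • e i = _
      rw [add_assoc, ← add_smul, two_mul]
    · rw [hpx, hρl i x hi0]
      field_simp
      ring
  have hTsub : ∀ i ∈ J, T i ⊆ (P + Y) \ P := by
    intro i hi p hp
    have hi0 := (hJ i).1 hi
    obtain ⟨a, haP, s, hs0, hs1, hpa, hlp⟩ := hc i hi p hp
    refine ⟨?_, ?_⟩
    · rw [hpa]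
      refine ⟨a, haP, s • e i, ?_, rfl⟩
      have := hYconv.smul_mem_of_zero_mem hY0 (heY i) ⟨hs0.le, hs1.le⟩
      exact this
    · intro hpP
      have h1 := hpP i
      have h2 : 0 < s * l i (e i) := by positivity
      linarith
  -- (d)
  have hdisj : ∀ i ∈ J, ∀ j ∈ J, i < j → volume (T i ∩ T j) = 0 := by
    intro i hi j hj hij
    have hi0 := (hJ i).1 hi
    have hj0 := (hJ j).1 hj
    have hsub : T i ∩ T j ⊆ {p | (l j (e j) • l i - l i (e i) • l j) p =
        h i * l j (e j) - h j * l i (e i)} := by
      intro p hp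
      obtain ⟨a, haP, s, hs0, hs1, hpa, hlp⟩ := hc i hi p hp.1
      obtain ⟨b, hbP, r, hr0, hr1, hpb, hlq⟩ := hc j hj p hp.2
      have h1 : r ≤ s := by
        have h2 : l j p ≤ h j + s * l j (e j) := by
          rw [hpa, map_add, map_smul, smul_eq_mul]
          have h3 := haP j
          have h4 := mul_le_mul_of_nonneg_left (hemax j (e i) (heY i)) hs0.le
          linarith
        rw [hlq] at h2
        have h3 : r * l j (e j) ≤ s * l j (e j) := by linarith
        exact le_of_mul_le_mul_right h3 hj0
      have h2 : s ≤ r := by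
        have h2 : l i p ≤ h i + r * l i (e i) := by
          rw [hpb, map_add, map_smul, smul_eq_mul]
          have h3 := hbP i
          have h4 := mul_le_mul_of_nonneg_left (hemax i (e j) (heY j)) hr0.le
          linarith
        rw [hlp] at h2
        have h3 : s * l i (e i) ≤ r * l i (e i) := by linarith
        exact le_of_mul_le_mul_right h3 hi0
      have h3 : s = r := le_antisymm h2 h1
      simp only [mem_ofPred_eq, _root_.sub_apply, _root_.smul_apply,
        smul_eq_mul]
      rw [hlp, hlq, h3]
      ring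
    by_cases hlin : ∃ v, (l j (e j) • l i - l i (e i) • l j) v ≠ 0
    · obtain ⟨v, hv⟩ := hlin
      exact measure_mono_null hsub (POLYT_null _ _ v hv)
    · push Not at hlin
      have hempty : T i ∩ T j = ∅ := by
        rw [Set.eq_empty_iff_forall_notMem]
        intro p hp
        have h1 := hsub hp
        simp only [mem_ofPred_eq] at h1
        rw [hlin p] at h1
        obtain ⟨_, _, _, h5⟩ := hp.2
        have h6 := h5 i hij hi0
        have h7 := hlin (ρ j p)
        simp only [_root_.sub_apply, _root_.smul_apply,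
          smul_eq_mul] at h7
        nlinarith
      rw [hempty, measure_empty]
  have hdisj' : Set.Pairwise (J : Set (Fin m)) (Function.onFun (AEDisjoint volume) T) := by
    intro i hi j hj hij
    rcases lt_or_gt_of_ne hij with hlt | hlt
    · exact hdisj i hi j hj hlt
    · have h1 := hdisj j hj i hi hlt
      rw [inter_comm] at h1
      exact h1
  -- (e)
  have hmain : volume (P \ md P Y) ≤ volume ((P + Y) \ P) := by
    calc volume (P \ md P Y) ≤ volume (⋃ i ∈ J, (R i ∪ {x | l i x = h i})) := measure_mono hcov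
      _ ≤ ∑ i ∈ J, volume (R i ∪ {x | l i x = h i}) := measure_biUnion_finset_le _ _
      _ ≤ ∑ i ∈ J, volume (T i) := by
          refine Finset.sum_le_sum fun i hi => ?_
          refine (measure_union_le _ _).trans ?_
          rw [POLYT_null (l i) (h i) (e i) ((hJ i).1 hi).ne', add_zero, hTv i hi]
      _ = volume (⋃ i ∈ J, T i) :=
          (measure_biUnion_finset₀ hdisj' fun i _ => (hTm i).nullMeasurableSet).symm
      _ ≤ volume ((P + Y) \ P) := measure_mono (iUnion₂_subset hTsub)
  have h1 : volume P = volume (md P Y) + volume (P \ md P Y) := by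
    rw [← measure_inter_add_sdiff P hmdm, inter_eq_self_of_subset_right hmdP]
  have h2 : volume (P + Y) = volume P + volume ((P + Y) \ P) := by
    rw [← measure_inter_add_sdiff (P + Y) hPm, inter_eq_self_of_subset_right hPPY]
  have hfin1 : volume P ≠ ⊤ := hPc.measure_lt_top.ne
  have hfin2 : volume (P + Y) ≠ ⊤ := hPYc.measure_lt_top.ne
  have hfin3 : volume (md P Y) ≠ ⊤ := ne_top_of_le_ne_top hfin1 (measure_mono hmdP)
  have hfin4 : volume (P \ md P Y) ≠ ⊤ := ne_top_of_le_ne_top hfin1 (measure_mono sdiff_subset)
  have hfin5 : volume ((P + Y) \ P) ≠ ⊤ := ne_top_of_le_ne_top hfin2 (measure_mono sdiff_subset)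
  have h3 : V P = V (md P Y) + (volume (P \ md P Y)).toReal := by
    simp only [V]
    rw [h1, ENNReal.toReal_add hfin3 hfin4]
  have h4 : V (P + Y) = V P + (volume ((P + Y) \ P)).toReal := by
    simp only [V]
    rw [h2, ENNReal.toReal_add hfin1 hfin5]
  have h5 : (volume (P \ md P Y)).toReal ≤ (volume ((P + Y) \ P)).toReal :=
    ENNReal.toReal_mono hfin5 hmain
  linarith

end Pool.Agent.H748R2.KB
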