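import Pool.Agent.H748R2.KB.Spec

set_option autoImplicit false

/-! Radial concavity of the root of the covariogram. -/

open MeasureTheory Set Pointwise

namespace Pool.Agent.H748R2.KB

open Pool.Agent.H404R2.TH (CB V)

namespace RADaux

theorem co_compact {n : ℕ} {K : Set (Fin n → ℝ)} (hK : IsCompact K) (z : Fin n → ℝ) :
    IsCompact (co K z) := by
  refine hK.of_isClosed_subset ?_ (fun x hx => hx.1)
  exact hK.isClosed.inter (hK.isClosed.preimage (continuous_id.add continuous_const))

theorem V_smul {n : ℕ} (r : ℝ) (hr : 0 ≤ r) (A : Set (Fin n → ℝ)) :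
    V (r • A) = r ^ n * V A := by
  unfold V
  rw [Measure.addHaar_smul, ENNReal.toReal_mul, Module.finrank_fin_fun,
    abs_of_nonneg (pow_nonneg hr n), ENNReal.toReal_ofReal (pow_nonneg hr n)]

theorem V_mono {n : ℕ} {A B : Set (Fin n → ℝ)} (hB : IsCompact B) (h : A ⊆ B) : V A ≤ V B :=
  ENNReal.toReal_mono hB.measure_lt_top.ne (measure_mono h)

theorem incl {n : ℕ} {K : Set (Fin n → ℝ)} (hK : Convex ℝ K) (z : Fin n → ℝ) (t : ℝ)
    (ht0 : 0 ≤ t) (ht1 : t ≤ 1) : (1 - t) • K + t • co K z ⊆ co K (t • z) := by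
  rintro _ ⟨_, ⟨x, hx, rfl⟩, _, ⟨y, hy, rfl⟩, rfl⟩
  refine ⟨hK hx hy.1 (by linarith) ht0 (by ring), ?_⟩
  have h := hK hx hy.2 (show 0 ≤ 1 - t by linarith) ht0 (by ring)
  have e : (1 - t) • x + t • (y + z) = (1 - t) • x + t • y + t • z := by
    rw [smul_add, add_assoc]
  rw [e] at h
  exact h

end RADaux

open RADaux

theorem t_RAD (hBM : S_BM) : S_RAD := by
  intro n K hK z t s ht0 ht1 hs0 hs1 h
  rcases Nat.eq_zero_or_pos n with rfl | hn
  · have e : co K (t • z) = K := by
      ext x
      have hx : x + t • z = x := Subsingleton.elim _ _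
      constructor
      · intro h
        exact h.1
      · intro h
        refine ⟨h, ?_⟩
        rw [hx]
        exact h
    rw [e]
    simp
  · have hVK : 0 < V K := by
      refine ENNReal.toReal_pos ?_ hK.isCompact.measure_lt_top.ne
      exact (Measure.measure_pos_of_nonempty_interior _ hK.interior_nonempty).ne'
    have hKne : K.Nonempty := hK.interior_nonempty.mono interior_subset
    have hVco : 0 < V (co K z) := lt_of_lt_of_le (by positivity) h
    have hco : (co K z).Nonempty := by
      rw [Set.nonempty_iff_ne_empty]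
      intro h0
      rw [h0] at hVco
      simp [V] at hVco
    obtain ⟨v, hv0, hv⟩ : ∃ v : ℝ, 0 ≤ v ∧ v ^ n = V K :=
      ⟨V K ^ ((n : ℝ)⁻¹), Real.rpow_nonneg hVK.le _, Real.rpow_inv_natCast_pow hVK.le hn.ne'⟩
    have h1 := hBM n ((1 - t) • K) (t • co K z) (hK.isCompact.smul _)
      ((co_compact hK.isCompact z).smul _) (hKne.smul_set) (hco.smul_set) ((1 - t) * v)
      (t * s * v) (mul_nonneg (by linarith) hv0) (by positivity) (by
        rw [V_smul _ (by linarith), mul_pow, hv]) (by
        rw [V_smul _ ht0, mul_assoc, mul_pow, mul_pow, hv]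
        exact mul_le_mul_of_nonneg_left h (by positivity))
    calc (1 - t * (1 - s)) ^ n * V K = ((1 - t) * v + t * s * v) ^ n := by
          rw [← hv, ← mul_pow]
          congr 1
          ring
      _ ≤ V ((1 - t) • K + t • co K z) := h1
      _ ≤ V (co K (t • z)) := V_mono (co_compact hK.isCompact _) (incl hK.convex z t ht0 ht1)

end Pool.Agent.H748R2.KB
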