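import Mathlib
import Pool.Agent.H748R2.KB.Spec

/-! real analysis at the end of the argument for dimension three -/

namespace Pool.Agent.H748R2.KB

theorem TREAL_main (q : ℝ) (hq0 : 0 ≤ q) (hq1 : q ≤ 1)
    (H : ∀ ε > (0 : ℝ), ∀ t : ℝ, 0 < t → t ≤ 1 / 10 →
      ∃ m x z u : ℝ, -1 / 6 ≤ m ∧ m ≤ 3 ∧ 0 ≤ x ∧ 0 ≤ z ∧ x + t * z ≤ u ∧ u ^ 3 ≤ q + ε ∧
        q * (1 - 3 / 2 * (1 + m) * t - 10 * t ^ 2) ≤ x ^ 3 ∧ z ^ 3 = (1 + 3 * m) / 4)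
    (t : ℝ) (ht : 0 < t) (ht1 : t ≤ 1 / 10) :
    5 / 16 * q ^ 2 * (1 - 6 * t - 10 * t ^ 2) ^ 2 ≤ (q + 11 * t) ^ 3 := by
  obtain ⟨m, x, z, u, hm1, hm2, hx, hz, hu, hu3, hx3, hz3⟩ := H (t ^ 2) (by positivity) t ht ht1
  set M : ℝ := (1 + m) / 2 with hM
  have hM1 : 5 / 12 ≤ M := by rw [hM]; linarith
  have hM2 : M ≤ 2 := by rw [hM]; linarith
  have hMm : m = 2 * M - 1 := by rw [hM]; ring
  set w : ℝ := 1 - 3 * M * t - 10 * t ^ 2 with hw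
  have hx3' : q * w ≤ x ^ 3 := by
    have : 1 - 3 / 2 * (1 + m) * t - 10 * t ^ 2 = w := by rw [hw, hM]; ring
    rwa [this] at hx3
  have ht2 : t ^ 2 ≤ 1 / 10 * t := by nlinarith
  have hw0 : 0 < 1 - 6 * t - 10 * t ^ 2 := by nlinarith
  have hww : 1 - 6 * t - 10 * t ^ 2 ≤ w := by
    rw [hw]; nlinarith
  have hxz : (x + t * z) ^ 3 ≤ u ^ 3 := pow_le_pow_left₀ (by positivity) hu 3
  have hxz2 : x ^ 3 + 3 * t * (x ^ 2 * z) ≤ (x + t * z) ^ 3 := by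
    have e : (x + t * z) ^ 3 = x ^ 3 + 3 * t * (x ^ 2 * z) + (3 * x * (t * z) ^ 2 + (t * z) ^ 3) := by
      ring
    rw [e]
    have : 0 ≤ 3 * x * (t * z) ^ 2 + (t * z) ^ 3 := by positivity
    linarith
  have h1 : 3 * t * (x ^ 2 * z) ≤ t ^ 2 + q * (3 * M * t + 10 * t ^ 2) := by
    have : q * w = q - q * (3 * M * t + 10 * t ^ 2) := by rw [hw]; ring
    linarith
  have h2 : x ^ 2 * z ≤ M * (q + 11 * t) := by
    have h3 : 3 * t * (x ^ 2 * z) ≤ 3 * t * (M * (q + 11 * t)) := by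
      refine h1.trans ?_
      have e : 3 * t * (M * (q + 11 * t)) = q * (3 * M * t) + 33 * M * t ^ 2 := by ring
      rw [e]
      have : q * (10 * t ^ 2) ≤ 10 * t ^ 2 := by nlinarith [sq_nonneg t]
      nlinarith [sq_nonneg t]
    exact le_of_mul_le_mul_left h3 (by positivity)
  have h4 : (x ^ 2 * z) ^ 3 ≤ (M * (q + 11 * t)) ^ 3 :=
    pow_le_pow_left₀ (by positivity) h2 3
  have hqw : 0 ≤ q * (1 - 6 * t - 10 * t ^ 2) := by positivity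
  have h5 : (q * (1 - 6 * t - 10 * t ^ 2)) ^ 2 ≤ (x ^ 3) ^ 2 := by
    apply pow_le_pow_left₀ hqw
    exact (mul_le_mul_of_nonneg_left hww hq0).trans hx3'
  have h6 : 5 / 16 * M ^ 3 ≤ z ^ 3 := by
    rw [hz3, hMm]
    have : (1 + 3 * (2 * M - 1)) / 4 - 5 / 16 * M ^ 3 =
        (2 - M) * (5 * M ^ 2 + 10 * M - 4) / 16 := by ring
    have h7 : 0 ≤ (2 - M) * (5 * M ^ 2 + 10 * M - 4) := by
      apply mul_nonneg (by linarith)
      nlinarith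
    linarith
  have h8 : (q * (1 - 6 * t - 10 * t ^ 2)) ^ 2 * (5 / 16 * M ^ 3) ≤ (M * (q + 11 * t)) ^ 3 := by
    calc (q * (1 - 6 * t - 10 * t ^ 2)) ^ 2 * (5 / 16 * M ^ 3)
        ≤ (x ^ 3) ^ 2 * z ^ 3 := by
          apply mul_le_mul h5 h6 (by positivity) (by positivity)
      _ = (x ^ 2 * z) ^ 3 := by ring
      _ ≤ _ := h4
  have hM3 : 0 < M ^ 3 := by positivity
  have h9 : M ^ 3 * (5 / 16 * q ^ 2 * (1 - 6 * t - 10 * t ^ 2) ^ 2) ≤ M ^ 3 * (q + 11 * t) ^ 3 := by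
    calc _ = (q * (1 - 6 * t - 10 * t ^ 2)) ^ 2 * (5 / 16 * M ^ 3) := by ring
      _ ≤ _ := h8
      _ = _ := by ring
  exact le_of_mul_le_mul_left h9 hM3

theorem t_REAL : S_REAL := by
  intro q hq0 hq1 H
  have hqpos : 0 < q := by
    by_contra hcon
    have hq : q = 0 := le_antisymm (not_lt.1 hcon) hq0
    obtain ⟨m, x, z, u, hm1, hm2, hx, hz, hu, hu3, hx3, hz3⟩ :=
      H (1 / 16000) (by norm_num) (1 / 10) (by norm_num) le_rfl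
    have h1 : (1 / 10 * z) ^ 3 ≤ u ^ 3 := pow_le_pow_left₀ (by positivity) (by linarith) 3
    have h2 : (1 / 10 * z) ^ 3 = 1 / 1000 * z ^ 3 := by ring
    rw [h2, hz3] at h1
    rw [hq] at hu3
    linarith
  have hlim : Filter.Tendsto
      (fun t : ℝ => (q + 11 * t) ^ 3 - 5 / 16 * q ^ 2 * (1 - 6 * t - 10 * t ^ 2) ^ 2)
      (nhdsWithin 0 (Set.Ioi 0))
      (nhds ((q + 11 * 0) ^ 3 - 5 / 16 * q ^ 2 * (1 - 6 * 0 - 10 * 0 ^ 2) ^ 2)) := by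
    apply Filter.Tendsto.mono_left _ nhdsWithin_le_nhds
    apply Continuous.tendsto
    fun_prop
  have hge := ge_of_tendsto hlim (b := 0) (by
    filter_upwards [Ioc_mem_nhdsGT (show (0 : ℝ) < 1 / 10 by norm_num)] with t ht
    have := TREAL_main q hq0 hq1 H t ht.1 ht.2
    linarith)
  have h2 : 5 / 16 * q ^ 2 ≤ q * q ^ 2 := by
    have e : (q + 11 * 0) ^ 3 - 5 / 16 * q ^ 2 * (1 - 6 * 0 - 10 * 0 ^ 2) ^ 2 =
      q * q ^ 2 - 5 / 16 * q ^ 2 := by ring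
    rw [e] at hge
    linarith
  exact le_of_mul_le_mul_right h2 (by positivity)

end Pool.Agent.H748R2.KB
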