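import Pool.Agent.H748R2.KB.Spec

set_option autoImplicit false

/-! USC: the largest symmetric part exists -/

open MeasureTheory Set Pointwise

namespace Pool.Agent.H748R2.KB

open Pool.Agent.H404R2.TH (CB V)

theorem USC_sy_compact {n : ℕ} {K : Set (Fin n → ℝ)} (hK : IsCompact K) (z : Fin n → ℝ) :
    IsCompact (sy K z) := by
  have : sy K z = K ∩ (fun x => z - x) ⁻¹' K := rfl
  rw [this]
  exact hK.inter_right (hK.isClosed.preimage (by fun_prop))

theorem USC_usc {n : ℕ} {K : Set (Fin n → ℝ)} (hK : IsCompact K) :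
    UpperSemicontinuous (fun z => V (sy K z)) := by
  intro z0 y hy
  have hfin : volume (sy K z0) ≠ ⊤ := (USC_sy_compact hK z0).measure_ne_top
  have hlt : volume (sy K z0) < ENNReal.ofReal y := by
    rw [← ENNReal.ofReal_toReal hfin]
    exact (ENNReal.ofReal_lt_ofReal_iff_of_nonneg ENNReal.toReal_nonneg).2 hy
  obtain ⟨U, hU, hUo, hUv⟩ := Set.exists_isOpen_lt_of_lt (sy K z0) (ENNReal.ofReal y) hlt
  have hcl : IsCompact ((K \ U) + K) := (hK.diff hUo).add hK
  have hz0 : z0 ∉ (K \ U) + K := by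
    rintro ⟨a, ha, b, hb, rfl⟩
    apply ha.2
    apply hU
    refine ⟨ha.1, ?_⟩
    simpa using hb
  filter_upwards [hcl.isClosed.isOpen_compl.mem_nhds hz0] with z hz
  have hsub : sy K z ⊆ U := by
    rintro x ⟨hx, hx'⟩
    by_contra hxU
    exact hz ⟨x, ⟨hx, hxU⟩, z - x, hx', by simp⟩
  have h1 : volume (sy K z) < ENNReal.ofReal y := (measure_mono hsub).trans_lt hUv
  exact (ENNReal.toReal_lt_of_lt_ofReal h1)

theorem t_USC : S_USC := by
  intro n K hK
  rcases K.eq_empty_or_nonempty with rfl | hne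
  · exact ⟨0, fun w => by simp [sy]⟩
  obtain ⟨z, _, hz⟩ := UpperSemicontinuousOn.exists_isMaxOn (hne.add hne) (hK.add hK)
    ((USC_usc hK).upperSemicontinuousOn (K + K))
  refine ⟨z, fun w => ?_⟩
  by_cases hw : w ∈ K + K
  · exact hz hw
  · have : sy K w = ∅ := by
      rw [Set.eq_empty_iff_forall_notMem]
      rintro x ⟨hx, hx'⟩
      exact hw ⟨x, hx, w - x, hx', by simp⟩
    show V (sy K w) ≤ V (sy K z)
    rw [this]
    have : V (∅ : Set (Fin n → ℝ)) = 0 := by simp [V]
    rw [this]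
    exact ENNReal.toReal_nonneg

end Pool.Agent.H748R2.KB
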