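import Pool.Agent.H748R2.KB.NM

set_option autoImplicit false

/-! transfer of the three-dimensional theorem to `EuclideanSpace ℝ (Fin 3)` -/

open MeasureTheory Set Pointwise

namespace Pool.Agent.H748R2.KB

open Pool.Agent.H404R2.TH (CB V)

theorem trans (h : S_KB3) (K : Set (EuclideanSpace ℝ (Fin 3))) (hK : IsCompact K)
    (hc : Convex ℝ K) (hi : (interior K).Nonempty) :
    ∃ C : Set (EuclideanSpace ℝ (Fin 3)), C ⊆ K ∧ Convex ℝ C ∧ IsCompact C ∧
        (interior C).Nonempty ∧
        (∃ c : EuclideanSpace ℝ (Fin 3), ∀ x ∈ C, (2 : ℝ) • c - x ∈ C) ∧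
        5 * volume K ≤ 16 * volume C := by
  set e := EuclideanSpace.equiv (Fin 3) ℝ with he
  have hmp : MeasurePreserving e volume volume := PiLp.volume_preserving_ofLp (Fin 3)
  have hvol : ∀ S : Set (EuclideanSpace ℝ (Fin 3)), IsCompact S → volume (e '' S) = volume S := by
    intro S hS
    have h1 := hmp.measure_preimage (hS.image e.continuous).measurableSet.nullMeasurableSet
    rw [preimage_image_eq _ e.injective] at h1
    exact h1.symm
  have hCB : CB (e '' K) := by
    refine ⟨hK.image e.continuous, hc.linear_image e.toLinearEquiv.toLinearMap, ?_⟩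
    have : interior (e '' K) = e '' interior K := (e.toHomeomorph.image_interior K).symm
    rw [this]
    exact hi.image _
  obtain ⟨z, hz⟩ := h _ hCB
  have hsyc := sy_compact hCB.isCompact z
  have hpos : 0 < V (sy (e '' K) z) := by
    have := V_pos hCB
    linarith
  have hcb := cb_of_pos hsyc (sy_convex hCB.convex z) hpos
  refine ⟨e.symm '' sy (e '' K) z, ?_, ?_, hsyc.image e.symm.continuous, ?_,
    ⟨e.symm ((1 / 2 : ℝ) • z), ?_⟩, ?_⟩
  · rintro _ ⟨x, hx, rfl⟩
    obtain ⟨y, hy, rfl⟩ := hx.1
    simpa using hy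
  · exact hcb.convex.linear_image e.symm.toLinearEquiv.toLinearMap
  · have : interior (e.symm '' sy (e '' K) z) = e.symm '' interior (sy (e '' K) z) :=
      (e.symm.toHomeomorph.image_interior _).symm
    rw [this]
    exact hcb.interior_nonempty.image _
  · rintro _ ⟨x, hx, rfl⟩
    refine ⟨z - x, ⟨hx.2, by simpa using hx.1⟩, ?_⟩
    rw [map_sub, map_smul, smul_smul]
    norm_num
  · have h1 : volume (e.symm '' sy (e '' K) z) = volume (sy (e '' K) z) := by
      rw [← hvol _ (hsyc.image e.symm.continuous)]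
      congr 1
      rw [← image_comp]
      simp
    rw [h1, ← hvol K hK]
    have hf1 : volume (e '' K) ≠ ⊤ := hCB.isCompact.measure_ne_top
    have hf2 : volume (sy (e '' K) z) ≠ ⊤ := hsyc.measure_ne_top
    have h2 : 5 * (volume (e '' K)).toReal ≤ 16 * (volume (sy (e '' K) z)).toReal := by
      have := hz
      unfold V at this
      linarith
    rw [← ENNReal.ofReal_toReal hf1, ← ENNReal.ofReal_toReal hf2]
    rw [show (5 : ENNReal) = ENNReal.ofReal 5 by simp, show (16 : ENNReal) = ENNReal.ofReal 16 by simp,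
      ← ENNReal.ofReal_mul (by norm_num), ← ENNReal.ofReal_mul (by norm_num)]
    exact ENNReal.ofReal_le_ofReal h2

end Pool.Agent.H748R2.KB
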